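import Mathlib

/-!
# Square orders: basic lemmas
-/

namespace Pool.Agent.H22.SO

theorem sq_left_of_coprime {a b : ℕ} (hab : Nat.Coprime a b) (h : IsSquare (a * b)) :
    IsSquare a := by
  obtain ⟨c, hc⟩ := h
  have h1 : a * b = c ^ 2 := by rw [hc]; ring
  obtain ⟨d, hd⟩ := exists_eq_pow_of_mul_eq_pow (Nat.isUnit_iff.2 hab) h1
  exact ⟨d, by rw [hd]; ring⟩

/-- If `N` is a square and `N g = A B` with `A` coprime to `B` and `g`, then `A` is a square. -/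
theorem square_of_mul {A B N g : ℕ} (hN : IsSquare N) (h : N * g = A * B)
    (hAB : Nat.Coprime A B) (hAg : Nat.Coprime A g) : IsSquare A := by
  apply sq_left_of_coprime (b := B * g) (hAB.mul_right hAg)
  have h2 : A * (B * g) = N * (g * g) := by
    rw [← mul_assoc, ← h]; ring
  rw [h2]
  exact hN.mul ⟨g, rfl⟩

theorem gcd_aux {q k d : ℕ} (hq : 1 ≤ q) (hd : ¬ 2 ^ (k + 1) ∣ d) :
    Nat.gcd (q ^ 2 ^ k + 1) (q ^ d - 1) ∣ 2 := by
  set g := Nat.gcd (q ^ 2 ^ k + 1) (q ^ d - 1) with hg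
  have h1 : g ∣ q ^ 2 ^ k + 1 := Nat.gcd_dvd_left _ _
  have h2 : g ∣ q ^ d - 1 := Nat.gcd_dvd_right _ _
  have hpos : 1 ≤ q ^ 2 ^ k := Nat.one_le_pow _ _ hq
  have h3 : q ^ 2 ^ (k + 1) - 1 = (q ^ 2 ^ k + 1) * (q ^ 2 ^ k - 1) := by
    have : q ^ 2 ^ (k + 1) = (q ^ 2 ^ k) ^ 2 := by rw [← pow_mul, pow_succ]
    rw [this]
    have := Nat.sq_sub_sq (q ^ 2 ^ k) 1
    simpa using this
  have h4 : g ∣ q ^ 2 ^ (k + 1) - 1 := h3 ▸ (h1.mul_right _)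
  have h5 : g ∣ q ^ (Nat.gcd (2 ^ (k + 1)) d) - 1 := by
    rw [← Nat.pow_sub_one_gcd_pow_sub_one]
    exact Nat.dvd_gcd h4 h2
  have h6 : Nat.gcd (2 ^ (k + 1)) d ∣ 2 ^ k := by
    obtain ⟨j, hj, hj2⟩ := (Nat.dvd_prime_pow Nat.prime_two).1 (Nat.gcd_dvd_left (2 ^ (k + 1)) d)
    rw [hj2]
    apply pow_dvd_pow
    by_contra hc
    have : j = k + 1 := by omega
    apply hd
    rw [← this, ← hj2]
    exact Nat.gcd_dvd_right _ _
  have h7 : g ∣ q ^ 2 ^ k - 1 := h5.trans (Nat.pow_sub_one_dvd_pow_sub_one q h6)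
  have h8 : g ∣ (q ^ 2 ^ k + 1) - (q ^ 2 ^ k - 1) := Nat.dvd_sub h1 h7
  have h9 : (q ^ 2 ^ k + 1) - (q ^ 2 ^ k - 1) = 2 := by omega
  rwa [h9] at h8

/-- An odd divisor of `q^(2^k)+1` is coprime to `q^d - 1` if `2^(k+1)` does not divide `d`. -/
theorem coprime_aux {q k d A : ℕ} (hq : 1 ≤ q) (hd : ¬ 2 ^ (k + 1) ∣ d) (hA : Odd A)
    (hA2 : A ∣ q ^ 2 ^ k + 1) : Nat.Coprime A (q ^ d - 1) := by
  have h1 : Nat.gcd A (q ^ d - 1) ∣ 2 :=
    (Nat.gcd_dvd_gcd_of_dvd_left _ hA2).trans (gcd_aux hq hd)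
  have h2 : Nat.Coprime A 2 := by
    rw [Nat.coprime_comm]
    exact (Nat.coprime_two_left (n := A)).2 hA
  have h3 := Nat.dvd_gcd (Nat.gcd_dvd_left A (q ^ d - 1)) h1
  rw [Nat.Coprime] at h2
  rw [h2] at h3
  exact Nat.dvd_one.1 h3

theorem coprime_aux_add {q k d A : ℕ} (hq : 1 ≤ q) (hd : ¬ 2 ^ (k + 1) ∣ 2 * d) (hA : Odd A)
    (hA2 : A ∣ q ^ 2 ^ k + 1) : Nat.Coprime A (q ^ d + 1) := by
  have h1 := coprime_aux hq hd hA hA2
  apply Nat.Coprime.coprime_dvd_right _ h1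
  have : q ^ (2 * d) - 1 = (q ^ d + 1) * (q ^ d - 1) := by
    have h := Nat.sq_sub_sq (q ^ d) 1
    rw [mul_comm 2 d, pow_mul]
    simpa using h
  rw [this]
  exact Dvd.intro _ rfl

theorem coprime_pow_self {q k e A : ℕ} (hA2 : A ∣ q ^ 2 ^ k + 1) :
    Nat.Coprime A (q ^ e) := by
  apply Nat.Coprime.pow_right
  apply Nat.Coprime.coprime_dvd_left hA2
  have : q ^ 2 ^ k = q * q ^ (2 ^ k - 1) := by
    rw [← pow_succ']
    congr 1
    have : 1 ≤ 2 ^ k := Nat.one_le_two_pow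
    omega
  rw [this, Nat.coprime_comm]
  simp

theorem coprime_half {q k A : ℕ} (hq : 1 ≤ q) (hA : Odd A) (hA2 : A ∣ q ^ 2 ^ k + 1) :
    Nat.Coprime A (q ^ 2 ^ k - 1) := by
  apply coprime_aux hq _ hA hA2
  intro h
  have := Nat.le_of_dvd (by positivity) h
  have h2 : 2 ^ k < 2 ^ (k + 1) := Nat.pow_lt_pow_right (by norm_num) (by omega)
  omega

/-- The key step: if `N` is a square and `N g = (q^(2^k)+1) B`, where every odd divisor of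
`q^(2^k)+1` is coprime to `B` and `g`, `k ≥ 1`, then `q` is odd and `q^(2^k)+1` is twice a square. -/
theorem key {q k N g B : ℕ} (hq : 2 ≤ q) (hk : 1 ≤ k) (hN : IsSquare N)
    (h : N * g = (q ^ 2 ^ k + 1) * B)
    (hB : ∀ A, Odd A → A ∣ q ^ 2 ^ k + 1 → Nat.Coprime A B)
    (hg : ∀ A, Odd A → A ∣ q ^ 2 ^ k + 1 → Nat.Coprime A g) :
    Odd q ∧ ∃ y, q ^ 2 ^ k + 1 = 2 * y ^ 2 := by
  obtain ⟨l, rfl⟩ : ∃ l, k = l + 1 := ⟨k - 1, by omega⟩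
  have hsq : q ^ 2 ^ (l + 1) = (q ^ 2 ^ l) ^ 2 := by rw [← pow_mul, pow_succ]
  set x := q ^ 2 ^ l with hx
  have hx1 : 1 ≤ x := Nat.one_le_pow _ _ (by omega)
  rcases Nat.even_or_odd q with he | ho
  · exfalso
    have hodd : Odd (q ^ 2 ^ (l + 1) + 1) := by
      apply Even.add_one
      exact he.pow_of_ne_zero (by positivity)
    obtain ⟨y, hy⟩ := square_of_mul hN h (hB _ hodd dvd_rfl) (hg _ hodd dvd_rfl)
    rw [hsq] at hy
    have h1 : x < y := by nlinarith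
    nlinarith
  · refine ⟨ho, ?_⟩
    have hxo : Odd x := ho.pow
    obtain ⟨t, ht⟩ := hxo
    have h2 : q ^ 2 ^ (l + 1) + 1 = 2 * (2 * (t * t + t) + 1) := by
      rw [hsq, ht]; ring
    have hodd : Odd (2 * (t * t + t) + 1) := ⟨_, rfl⟩
    have hdvd : (2 * (t * t + t) + 1) ∣ q ^ 2 ^ (l + 1) + 1 := by
      rw [h2]; exact Dvd.intro_left _ rfl
    have h3 : N * g = (2 * (t * t + t) + 1) * (2 * B) := by
      rw [h, h2]; ring
    have hc2 : Nat.Coprime (2 * (t * t + t) + 1) 2 := by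
      rw [Nat.coprime_comm]
      exact (Nat.coprime_two_left).2 hodd
    obtain ⟨y, hy⟩ := square_of_mul hN h3 (hc2.mul_right (hB _ hodd hdvd)) (hg _ hodd hdvd)
    exact ⟨y, by rw [h2, hy]; ring⟩

end Pool.Agent.H22.SO
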