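import Mathlib

/-!
`T = z^l`, `z = p^j` a prime power: `T^2 + 1 = (z^2 + 1) v^2` is impossible for `l ≥ 2`.
The solutions of this Pell equation are `T = sinh ((2 i + 1) arsinh z)`.
-/

set_option autoImplicit false

namespace Pool.Agent.H22.SO

namespace CaseAAux

/-- The solutions of `T^2 + 1 = (z^2 + 1) v^2`. -/
def sol (z : ℤ) : ℕ → ℤ × ℤ
  | 0 => (z, 1)
  | i + 1 => ((2 * z ^ 2 + 1) * (sol z i).1 + 2 * z * (z ^ 2 + 1) * (sol z i).2,
      (2 * z ^ 2 + 1) * (sol z i).2 + 2 * z * (sol z i).1)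

lemma sol_sinh (z : ℤ) (i : ℕ) :
    (((sol z i).1 : ℤ) : ℝ) = Real.sinh ((2 * i + 1) * Real.arsinh z) ∧
    Real.sqrt (1 + (z : ℝ) ^ 2) * (((sol z i).2 : ℤ) : ℝ) =
      Real.cosh ((2 * i + 1) * Real.arsinh z) := by
  have hs : Real.sqrt (1 + (z : ℝ) ^ 2) * Real.sqrt (1 + (z : ℝ) ^ 2) = 1 + (z : ℝ) ^ 2 :=
    Real.mul_self_sqrt (by positivity)
  induction i with
  | zero =>
    simp [sol, Real.sinh_arsinh, Real.cosh_arsinh]
  | succ i ih =>
    obtain ⟨h1, h2⟩ := ih
    have e : (2 * ((i + 1 : ℕ) : ℝ) + 1) * Real.arsinh z =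
        (2 * (i : ℝ) + 1) * Real.arsinh z + 2 * Real.arsinh z := by
      push_cast
      ring
    rw [e, Real.sinh_add, Real.cosh_add, Real.sinh_two_mul, Real.cosh_two_mul,
      Real.sinh_arsinh, Real.cosh_arsinh, ← h1, ← h2]
    simp only [sol]
    push_cast
    constructor
    · linear_combination (-((sol z i).1 : ℝ) - 2 * (z : ℝ) * ((sol z i).2 : ℝ)) * hs
    · linear_combination (-Real.sqrt (1 + (z : ℝ) ^ 2) * ((sol z i).2 : ℝ)) * hs

/-- Composition. -/
lemma sol_comp (z : ℤ) (a i : ℕ) : (sol z (2 * a * i + a + i)).1 = (sol (sol z i).1 a).1 := by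
  have h1 := (sol_sinh z (2 * a * i + a + i)).1
  have h2 := (sol_sinh (sol z i).1 a).1
  rw [(sol_sinh z i).1, Real.arsinh_sinh] at h2
  have : (((sol z (2 * a * i + a + i)).1 : ℤ) : ℝ) = (((sol (sol z i).1 a).1 : ℤ) : ℝ) := by
    rw [h1, h2]
    congr 1
    push_cast
    ring
  exact_mod_cast this

lemma sol_mod (z : ℤ) (i : ℕ) : ∃ q r : ℤ, (sol z i).1 = z * (z ^ 2 * q + (2 * i + 1)) ∧
    (sol z i).2 = 1 + z ^ 2 * r := by
  induction i with
  | zero => exact ⟨0, 0, by simp [sol], by simp [sol]⟩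
  | succ i ih =>
    obtain ⟨q, r, h1, h2⟩ := ih
    refine ⟨q + 2 * (z ^ 2 * q + (2 * i + 1)) + 2 * (1 + z ^ 2 * r) + 2 * r,
      r + 2 * (1 + z ^ 2 * r) + 2 * (z ^ 2 * q + (2 * i + 1)), ?_, ?_⟩
    · simp only [sol, h1, h2]
      push_cast
      ring
    · simp only [sol, h1, h2]
      ring

lemma sol_pos {z : ℤ} (hz : 0 < z) (i : ℕ) : 0 < (sol z i).1 ∧ 0 < (sol z i).2 := by
  induction i with
  | zero => exact ⟨by simpa [sol] using hz, by simp [sol]⟩
  | succ i ih =>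
    obtain ⟨h1, h2⟩ := ih
    constructor
    · simp only [sol]; positivity
    · simp only [sol]; positivity

lemma sol_ge {z : ℤ} (hz : 0 < z) (i : ℕ) : (2 * i + 1) * z ≤ (sol z i).1 := by
  induction i with
  | zero => simp [sol]
  | succ i ih =>
    obtain ⟨h1, h2⟩ := sol_pos hz i
    simp only [sol]
    push_cast
    have h3 : 1 ≤ (sol z i).2 := h2
    have h4 : 2 * z * (z ^ 2 + 1) * 1 ≤ 2 * z * (z ^ 2 + 1) * (sol z i).2 :=
      mul_le_mul_of_nonneg_left h3 (by positivity)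
    have h5 : 0 ≤ 2 * z ^ 2 * (sol z i).1 := by positivity
    nlinarith [pow_pos hz 3]

lemma sol_gt {z : ℤ} (hz : 0 < z) {i : ℕ} (hi : 1 ≤ i) : (2 * i + 1) * z < (sol z i).1 := by
  obtain ⟨i, rfl⟩ : ∃ i', i = i' + 1 := ⟨i - 1, by omega⟩
  have ih := sol_ge hz i
  obtain ⟨h1, h2⟩ := sol_pos hz i
  simp only [sol]
  push_cast
  have h3 : 1 ≤ (sol z i).2 := h2
  have h4 : 2 * z * (z ^ 2 + 1) * 1 ≤ 2 * z * (z ^ 2 + 1) * (sol z i).2 :=
    mul_le_mul_of_nonneg_left h3 (by positivity)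
  have h5 : 0 ≤ 2 * z ^ 2 * (sol z i).1 := by positivity
  nlinarith [pow_pos hz 3]

/-- All positive solutions are of this form. -/
lemma exists_sol {z : ℤ} (hz : 0 < z) : ∀ (n : ℕ) (T v : ℤ), T.toNat ≤ n → 0 < T → 0 < v →
    T ^ 2 + 1 = (z ^ 2 + 1) * v ^ 2 → ∃ i, T = (sol z i).1 ∧ v = (sol z i).2 := by
  intro n
  induction n with
  | zero => intro T v hn hT; omega
  | succ n ih =>
    intro T v hn hT hv h
    have hzT : z ≤ T := by
      by_contra hlt
      push Not at hlt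
      have h1 : T ^ 2 < z ^ 2 := by nlinarith
      have h2 : 1 ≤ v ^ 2 := by nlinarith
      nlinarith [sq_nonneg z]
    rcases hzT.eq_or_lt with heq | hlt
    · refine ⟨0, by simp [sol, heq], ?_⟩
      subst heq
      have h1 : (z ^ 2 + 1) * (v ^ 2 - 1) = 0 := by linear_combination -h
      have h2 : v ^ 2 - 1 = 0 := by
        rcases mul_eq_zero.1 h1 with h3 | h3
        · nlinarith [sq_nonneg z]
        · exact h3
      simp only [sol]
      nlinarith
    · set T' := (2 * z ^ 2 + 1) * T - 2 * z * (z ^ 2 + 1) * v with hT'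
      set v' := (2 * z ^ 2 + 1) * v - 2 * z * T with hv'
      have hpell : T' ^ 2 + 1 = (z ^ 2 + 1) * v' ^ 2 := by
        rw [hT', hv']
        linear_combination h
      have hv'pos : 0 < v' := by
        have h1 : (2 * z * T) ^ 2 < ((2 * z ^ 2 + 1) * v) ^ 2 := by
          have : ((2 * z ^ 2 + 1) * v) ^ 2 - (2 * z * T) ^ 2 = v ^ 2 + 4 * z ^ 2 := by
            linear_combination (-(4 * z ^ 2)) * h
          nlinarith [pow_pos hv 2, pow_pos hz 2]
        have h2 := lt_of_pow_lt_pow_left₀ 2 (by positivity) h1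
        rw [hv']
        linarith
      have hT'z : -z < T' := by
        have h1 : (2 * z * (z ^ 2 + 1) * v) ^ 2 < ((2 * z ^ 2 + 1) * T + z) ^ 2 := by
          have e : ((2 * z ^ 2 + 1) * T + z) ^ 2 - (2 * z * (z ^ 2 + 1) * v) ^ 2 =
              (T - z) * (T + z) + 2 * z * (2 * z ^ 2 + 1) * (T - z) := by
            linear_combination (4 * z ^ 2 * (z ^ 2 + 1)) * h
          have h3 : 0 < (T - z) * (T + z) := mul_pos (by linarith) (by linarith)
          have h4 : 0 < 2 * z * (2 * z ^ 2 + 1) * (T - z) :=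
            mul_pos (by positivity) (by linarith)
          linarith
        have h2 := lt_of_pow_lt_pow_left₀ 2 (by positivity) h1
        rw [hT']
        linarith
      have hT'pos : 0 < T' := by
        by_contra hneg
        push Not at hneg
        have h1 : 1 ≤ v' ^ 2 := by nlinarith
        nlinarith [sq_nonneg z]
      have hT'lt : T' < T := by
        have h1 : (z * T) ^ 2 < ((z ^ 2 + 1) * v) ^ 2 := by
          have e : ((z ^ 2 + 1) * v) ^ 2 - (z * T) ^ 2 = T ^ 2 + z ^ 2 + 1 := by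
            linear_combination (-(z ^ 2 + 1)) * h
          nlinarith [sq_nonneg z, sq_nonneg T]
        have h2 := lt_of_pow_lt_pow_left₀ 2 (by positivity) h1
        rw [hT']
        nlinarith
      obtain ⟨i, hi1, hi2⟩ := ih T' v' (by omega) hT'pos hv'pos hpell
      refine ⟨i + 1, ?_, ?_⟩
      · simp only [sol, ← hi1, ← hi2]
        rw [hT', hv']
        ring
      · simp only [sol, ← hi1, ← hi2]
        rw [hT', hv']
        ring

end CaseAAux

open CaseAAux in
/-- job B : T = z^l, z = p^j prime power, T^2 + 1 = (z^2+1) v^2 impossible for l ≥ 2 -/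
theorem caseA {p j l v : ℕ} (hp : p.Prime) (hj : 1 ≤ j) (hl : 2 ≤ l)
    (h : (p ^ j) ^ (2 * l) + 1 = ((p ^ j) ^ 2 + 1) * v ^ 2) : False := by
  set z : ℤ := (p : ℤ) ^ j with hz
  have hp2 : 2 ≤ (p : ℤ) := by exact_mod_cast hp.two_le
  have hzpos : 0 < z := by positivity
  have hz1 : 1 < z := one_lt_pow₀ (by linarith) (by omega)
  have hpz : (p : ℤ) ∣ z := dvd_pow_self _ (by omega)
  have hpp : Prime (p : ℤ) := Nat.prime_iff_prime_int.mp hp
  have hvpos : 0 < (v : ℤ) := by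
    rcases Nat.eq_zero_or_pos v with h0 | h0
    · subst h0; simp at h
    · exact_mod_cast h0
  have hmain : (z ^ l) ^ 2 + 1 = (z ^ 2 + 1) * (v : ℤ) ^ 2 := by
    have : (((p ^ j) ^ (2 * l) + 1 : ℕ) : ℤ) = ((((p ^ j) ^ 2 + 1) * v ^ 2 : ℕ) : ℤ) := by
      rw [h]
    push_cast at this
    rw [← pow_mul, mul_comm l 2, hz]
    exact this
  obtain ⟨i, hi, -⟩ := exists_sol hzpos (z ^ l).toNat (z ^ l) v le_rfl (by positivity) hvpos hmain
  have hi1 : 1 ≤ i := by
    rcases Nat.eq_zero_or_pos i with h0 | h0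
    · exfalso
      subst h0
      simp only [sol] at hi
      have : z ^ 1 < z ^ l := pow_lt_pow_right₀ hz1 (by omega)
      rw [pow_one] at this
      omega
    · exact h0
  -- `p` divides `2 i + 1`
  obtain ⟨q, -, hq, -⟩ := sol_mod z i
  have hpk : (p : ℤ) ∣ (2 * (i : ℤ) + 1) := by
    have h1 : z ^ l = z * z ^ (l - 1) := by
      rw [← pow_succ']
      congr 1
      omega
    rw [h1, hq] at hi
    have h2 : z ^ (l - 1) = z ^ 2 * q + (2 * i + 1) := mul_left_cancel₀ hzpos.ne' hi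
    have h3 : (p : ℤ) ∣ z ^ (l - 1) := hpz.trans (dvd_pow_self _ (by omega))
    have h4 : (p : ℤ) ∣ z ^ 2 * q := (hpz.trans (dvd_pow_self _ (by norm_num))).mul_right _
    have h5 : (2 * (i : ℤ) + 1) = z ^ (l - 1) - z ^ 2 * q := by rw [h2]; ring
    rw [h5]
    exact dvd_sub h3 h4
  have hpk' : p ∣ 2 * i + 1 := by exact_mod_cast hpk
  obtain ⟨k, hk⟩ := hpk'
  have hpodd : Odd p := by
    by_contra hne
    rw [Nat.not_odd_iff_even] at hne
    have : Even (2 * i + 1) := hk ▸ hne.mul_right k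
    exact absurd this (by simp)
  have hkodd : Odd k := by
    by_contra hne
    rw [Nat.not_odd_iff_even] at hne
    have : Even (2 * i + 1) := hk ▸ hne.mul_left p
    exact absurd this (by simp)
  obtain ⟨a, ha⟩ := hpodd
  obtain ⟨i', hi'⟩ := hkodd
  have hia : i = 2 * a * i' + a + i' := by
    rw [ha, hi'] at hk
    have : 2 * i + 1 = 2 * (2 * a * i' + a + i') + 1 := by rw [hk]; ring
    omega
  have ha1 : 1 ≤ a := by
    rcases Nat.eq_zero_or_pos a with h0 | h0
    · exfalso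
      subst h0
      exact hp.one_lt.ne' (by omega)
    · exact h0
  set T' := (sol z i').1 with hT'
  have hT'pos : 0 < T' := (sol_pos hzpos i').1
  have hTcomp : z ^ l = (sol T' a).1 := by
    rw [hi, hia, sol_comp]
  obtain ⟨q2, -, hq2, -⟩ := sol_mod z i'
  have hpT' : (p : ℤ) ∣ T' := by
    rw [hT', hq2]
    exact hpz.mul_right _
  obtain ⟨q3, -, hq3, -⟩ := sol_mod T' a
  have hgt := sol_gt hT'pos ha1
  have hpa : (2 * (a : ℤ) + 1) = p := by rw [ha]; push_cast; ring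
  rw [hpa] at hq3 hgt
  have hN : (p : ℤ) < T' ^ 2 * q3 + p := by
    rw [hq3, mul_comm T' _] at hgt
    exact lt_of_mul_lt_mul_right hgt hT'pos.le
  -- `T'^2 q3 + p` is a power of `p`
  have hdvd : (T' ^ 2 * q3 + p) ∣ (p : ℤ) ^ (j * l) := by
    rw [pow_mul, ← hz, hTcomp, hq3]
    exact dvd_mul_left _ _
  obtain ⟨c, hc⟩ : ∃ c : ℕ, (T' ^ 2 * q3 + p) = (p : ℤ) ^ c := by
    have hnonneg : 0 ≤ T' ^ 2 * q3 + p := by
      have := hpp.ne_zero
      linarith
    obtain ⟨c, -, hc⟩ := (dvd_prime_pow hpp (j * l)).1 hdvd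
    refine ⟨c, ?_⟩
    rcases Int.associated_iff.1 hc with h1 | h1
    · exact h1
    · exfalso
      have h2 : (0 : ℤ) < (p : ℤ) ^ c := by positivity
      linarith
  have hc2 : 2 ≤ c := by
    by_contra hlt
    push Not at hlt
    interval_cases c
    · rw [hc] at hN
      simp at hN
      linarith
    · rw [hc] at hN
      simp at hN
  have hp2N : (p : ℤ) ^ 2 ∣ T' ^ 2 * q3 + p := hc ▸ pow_dvd_pow _ hc2
  have hp2T : (p : ℤ) ^ 2 ∣ T' ^ 2 * q3 := (pow_dvd_pow_of_dvd hpT' 2).mul_right _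
  have hp2p : (p : ℤ) ^ 2 ∣ p := (dvd_add_right hp2T).1 hp2N
  have hle := Int.le_of_dvd (by linarith) hp2p
  nlinarith

end Pool.Agent.H22.SO
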