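import Mathlib

/-!
`(z^(2l)+1)/(z^2+1) = l v^2` is impossible for `z` odd and an odd prime `l` dividing `z^2+1`
(Jacobi symbols of the numbers `Q n = (X^n+1)/(X+1)`, `X = z^2`).
-/

namespace Pool.Agent.H22.SO

namespace CaseBAux

open scoped NumberTheorySymbols

/-- `Q X n = (X^n+1)/(X+1)` (used for odd `n`). -/
def Q (X n : ℕ) : ℕ := (X ^ n + 1) / (X + 1)

theorem Q_spec {X n : ℕ} (hn : Odd n) : (X + 1) * Q X n = X ^ n + 1 := by
  have h : X + 1 ∣ X ^ n + 1 := by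
    simpa using hn.nat_add_dvd_pow_add_pow X 1
  exact Nat.mul_div_cancel' h

theorem Q_specZ {X n : ℕ} (hn : Odd n) : ((X : ℤ) + 1) * (Q X n : ℤ) = (X : ℤ) ^ n + 1 := by
  exact_mod_cast Q_spec hn

theorem Q_one (X : ℕ) : Q X 1 = 1 := by
  have h := Q_spec (X := X) (n := 1) odd_one
  rw [pow_one] at h
  have h2 : (X + 1) * Q X 1 = (X + 1) * 1 := by rw [h, mul_one]
  exact Nat.eq_of_mul_eq_mul_left (Nat.succ_pos X) h2

theorem sq_mod_eight {z : ℕ} (hz : Odd z) : z ^ 2 % 8 = 1 := by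
  obtain ⟨k, rfl⟩ := hz
  have h : (2 * k + 1) ^ 2 = 4 * (k * (k + 1)) + 1 := by ring
  rw [h]
  obtain ⟨j, hj⟩ := (Nat.even_mul_succ_self k)
  have : k * (k + 1) = j + j := hj
  omega

theorem pow_mod_eight {X : ℕ} (hX : X % 8 = 1) (n : ℕ) : X ^ n % 8 = 1 := by
  rw [Nat.pow_mod, hX, one_pow]
  rfl

theorem Q_mod_four {X n : ℕ} (hX : X % 8 = 1) (hn : Odd n) : Q X n % 4 = 1 := by
  have h := Q_spec (X := X) hn
  have h2 := pow_mod_eight hX n
  obtain ⟨k, hk⟩ : ∃ k, X = 8 * k + 1 := ⟨X / 8, by omega⟩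
  obtain ⟨j, hj⟩ : ∃ j, X ^ n = 8 * j + 1 := ⟨X ^ n / 8, by omega⟩
  rw [hj] at h
  have h3 : (X + 1) * Q X n = 8 * (k * Q X n) + 2 * Q X n := by
    rw [show (X + 1) * Q X n = X * Q X n + Q X n by ring]
    conv_lhs => rw [show X * Q X n = (8 * k + 1) * Q X n by rw [← hk]]
    ring
  rw [h3] at h
  omega

theorem Q_odd {X n : ℕ} (hX : X % 8 = 1) (hn : Odd n) : Odd (Q X n) := by
  have := Q_mod_four hX hn
  exact Nat.odd_iff.2 (by omega)

theorem Q_coprime {X n : ℕ} (hn : Odd n) : Nat.Coprime X (Q X n) := by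
  have h : Q X n ∣ X ^ n + 1 := ⟨X + 1, by rw [← Q_spec (X := X) hn]; ring⟩
  have h1 : Nat.Coprime X (X ^ n + 1) := by
    obtain ⟨k, rfl⟩ := hn
    rw [show X ^ (2 * k + 1) + 1 = 1 + X * X ^ (2 * k) by ring]
    exact (Nat.coprime_add_mul_left_right X 1 (X ^ (2 * k))).2 (Nat.coprime_one_right X)
  exact Nat.Coprime.coprime_dvd_right h h1

theorem key {X m : ℕ} (hm : Odd m) (a : ℕ) :
    ∃ c : ℤ, (X : ℤ) ^ (2 * m * a) - 1 = ((X : ℤ) + 1) * ((Q X m : ℤ) * c) := by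
  have h1 : ((X : ℤ) ^ m) ^ 2 - 1 ∣ (((X : ℤ) ^ m) ^ 2) ^ a - 1 := by
    simpa using sub_dvd_pow_sub_pow (((X : ℤ) ^ m) ^ 2) 1 a
  obtain ⟨c, hc⟩ := h1
  refine ⟨((X : ℤ) ^ m - 1) * c, ?_⟩
  have h2 := Q_specZ (X := X) hm
  calc (X : ℤ) ^ (2 * m * a) - 1 = (((X : ℤ) ^ m) ^ 2) ^ a - 1 := by ring
    _ = (((X : ℤ) ^ m) ^ 2 - 1) * c := hc
    _ = ((X : ℤ) ^ m + 1) * (((X : ℤ) ^ m - 1) * c) := by ring
    _ = ((X : ℤ) + 1) * ((Q X m : ℤ) * (((X : ℤ) ^ m - 1) * c)) := by rw [← h2]; ring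

theorem dvd_plus {X m n r a : ℕ} (hm : Odd m) (hn : Odd n) (hr : Odd r)
    (h : n = 2 * m * a + r) : (Q X m : ℤ) ∣ (Q X n : ℤ) - (Q X r : ℤ) := by
  obtain ⟨c, hc⟩ := key (X := X) hm a
  have hX : ((X : ℤ) + 1) ≠ 0 := by positivity
  refine ⟨(X : ℤ) ^ r * c, mul_left_cancel₀ hX ?_⟩
  rw [mul_sub, Q_specZ hn, Q_specZ hr, h]
  calc (X : ℤ) ^ (2 * m * a + r) + 1 - ((X : ℤ) ^ r + 1)
      = (X : ℤ) ^ r * ((X : ℤ) ^ (2 * m * a) - 1) := by ring
    _ = ((X : ℤ) + 1) * ((Q X m : ℤ) * ((X : ℤ) ^ r * c)) := by rw [hc]; ring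

theorem dvd_minus {X m n r a : ℕ} (hm : Odd m) (hn : Odd n) (hr : Odd r)
    (h : n + r = 2 * m * a) : (Q X m : ℤ) ∣ (X : ℤ) ^ r * (Q X n : ℤ) - (Q X r : ℤ) := by
  obtain ⟨c, hc⟩ := key (X := X) hm a
  have hX : ((X : ℤ) + 1) ≠ 0 := by positivity
  refine ⟨c, mul_left_cancel₀ hX ?_⟩
  have e1 : ((X : ℤ) + 1) * ((X : ℤ) ^ r * (Q X n : ℤ) - (Q X r : ℤ))
      = (X : ℤ) ^ r * (((X : ℤ) + 1) * (Q X n : ℤ)) - ((X : ℤ) + 1) * (Q X r : ℤ) := by ring
  rw [e1, Q_specZ hn, Q_specZ hr, ← hc, ← h]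
  ring

theorem jac_congr {a b : ℤ} {m : ℕ} (h : (m : ℤ) ∣ a - b) : J(a | m) = J(b | m) :=
  jacobiSym.mod_left' ((Int.emod_eq_emod_iff_emod_sub_eq_zero).2 (Int.emod_eq_zero_of_dvd h))

theorem jac {z : ℕ} (hz : Odd z) : ∀ m : ℕ, Odd m → ∀ n : ℕ, Odd n → Nat.Coprime n m →
    J((Q (z ^ 2) n : ℤ) | Q (z ^ 2) m) = 1 := by
  have hX : z ^ 2 % 8 = 1 := sq_mod_eight hz
  intro m
  induction m using Nat.strong_induction_on with
  | _ m ih =>
    intro hm n hn hc
    rcases Nat.lt_or_ge m 2 with h1 | h1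
    · have : m = 1 := by
        rcases hm with ⟨k, hk⟩
        omega
      rw [this, Q_one]
      exact jacobiSym.one_right _
    · -- main step, given `r`
      have step : ∀ r : ℕ, Odd r → r < m → Nat.Coprime m r →
          J((Q (z ^ 2) r : ℤ) | Q (z ^ 2) m) = 1 := by
        intro r hr hrm hcr
        have h3 := ih r hrm hr m hm hcr
        rw [jacobiSym.quadratic_reciprocity_one_mod_four (Q_mod_four hX hr) (Q_odd hX hm)]
        exact h3
      set s := n % (2 * m) with hs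
      have hdiv : n = 2 * m * (n / (2 * m)) + s := (Nat.div_add_mod n (2 * m)).symm
      have hslt : s < 2 * m := Nat.mod_lt _ (by omega)
      have hsodd : Odd s := by
        rcases Nat.even_or_odd s with he | ho
        · exfalso
          have : Even n := by
            rw [hdiv]
            exact ((even_two_mul m).mul_right _).add he
          exact (Nat.not_even_iff_odd.2 hn) this
        · exact ho
      have hcs : Nat.Coprime m s := by
        have h4 : Nat.Coprime (2 * m * (n / (2 * m)) + s) m := by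
          rw [← hdiv]; exact hc
        have h5 : Nat.Coprime m (s + m * (2 * (n / (2 * m)))) := by
          have e : s + m * (2 * (n / (2 * m))) = 2 * m * (n / (2 * m)) + s := by ring
          rw [e]; exact h4.symm
        exact (Nat.coprime_add_mul_left_right m s _).1 h5
      have hsm : s ≠ m := by
        intro e
        rw [e, Nat.coprime_self] at hcs
        omega
      rcases Nat.lt_or_gt_of_ne hsm with hlt | hgt
      · rw [jac_congr (dvd_plus hm hn hsodd hdiv)]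
        exact step s hsodd hlt hcs
      · -- `r = 2m - s`
        obtain ⟨r, hr⟩ : ∃ r, r + s = 2 * m := ⟨2 * m - s, by omega⟩
        have hrodd : Odd r := by
          rcases Nat.even_or_odd r with he | ho
          · exfalso
            have h6 : Odd (2 * m) := by
              rw [← hr]; exact he.add_odd hsodd
            exact (Nat.not_even_iff_odd.2 h6) (even_two_mul m)
          · exact ho
        have hcr : Nat.Coprime m r := by
          have hd1 : Nat.gcd m r ∣ m := Nat.gcd_dvd_left m r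
          have hd2 : Nat.gcd m r ∣ r := Nat.gcd_dvd_right m r
          have hd3 : Nat.gcd m r ∣ r + s := by
            rw [hr]; exact hd1.mul_left 2
          have hd4 : Nat.gcd m r ∣ s := (Nat.dvd_add_right hd2).1 hd3
          have hd5 : Nat.gcd m r ∣ Nat.gcd m s := Nat.dvd_gcd hd1 hd4
          rw [hcs] at hd5
          exact Nat.dvd_one.1 hd5
        have hnr : n + r = 2 * m * (n / (2 * m) + 1) := by
          calc n + r = (2 * m * (n / (2 * m)) + s) + r := by rw [← hdiv]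
            _ = 2 * m * (n / (2 * m)) + (r + s) := by ring
            _ = 2 * m * (n / (2 * m) + 1) := by rw [hr]; ring
        have h8 := jac_congr (dvd_minus (X := z ^ 2) hm hn hrodd hnr)
        rw [jacobiSym.mul_left, jacobiSym.pow_left] at h8
        have h9 : J(((z ^ 2 : ℕ) : ℤ) | Q (z ^ 2) m) = 1 := by
          rw [Nat.cast_pow]
          apply jacobiSym.sq_one'
          have h10 : Nat.Coprime (z ^ 2) (Q (z ^ 2) m) := Q_coprime hm
          have h11 : Nat.Coprime z (Q (z ^ 2) m) :=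
            Nat.Coprime.coprime_dvd_left (dvd_pow_self z two_ne_zero) h10
          rw [Int.gcd_natCast_natCast]
          exact h11
        rw [h9, one_pow, one_mul] at h8
        rw [h8]
        exact step r hrodd (by omega) hcr

theorem Q_sum {X m : ℕ} (hm : Odd m) :
    (Q X m : ℤ) = ∑ i ∈ Finset.range m, (-(X : ℤ)) ^ i := by
  have hX : ((X : ℤ) + 1) ≠ 0 := by positivity
  apply mul_left_cancel₀ hX
  rw [Q_specZ hm]
  have h := geom_sum_mul (-(X : ℤ)) m
  rw [hm.neg_pow] at h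
  linarith

theorem Q_mod_l {X m l : ℕ} (hm : Odd m) (hd : l ∣ X + 1) : (l : ℤ) ∣ (Q X m : ℤ) - (m : ℤ) := by
  rw [Q_sum hm]
  have h1 : (l : ℤ) ∣ (X : ℤ) + 1 := by exact_mod_cast hd
  have h2 : ∀ i : ℕ, (l : ℤ) ∣ (-(X : ℤ)) ^ i - 1 := by
    intro i
    have h3 : (-(X : ℤ)) - 1 ∣ (-(X : ℤ)) ^ i - 1 := by
      simpa using sub_dvd_pow_sub_pow (-(X : ℤ)) 1 i
    refine dvd_trans ?_ h3
    have : (-(X : ℤ)) - 1 = -((X : ℤ) + 1) := by ring
    rw [this]
    exact (dvd_neg).2 h1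
  have h4 : ∑ i ∈ Finset.range m, (-(X : ℤ)) ^ i - (m : ℤ)
      = ∑ i ∈ Finset.range m, ((-(X : ℤ)) ^ i - 1) := by
    rw [Finset.sum_sub_distrib]
    simp
  rw [h4]
  exact Finset.dvd_sum fun i _ => h2 i

/-- an odd number which is a nonresidue modulo the odd prime `l` -/
theorem exists_nonres {l : ℕ} (hl : l.Prime) (hl2 : l ≠ 2) : ∃ m : ℕ, Odd m ∧ J((m : ℤ) | l) = -1 := by
  have : Fact l.Prime := ⟨hl⟩
  have hchar : ringChar (ZMod l) ≠ 2 := by
    rw [ZMod.ringChar_zmod_n]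
    exact hl2
  obtain ⟨a, ha⟩ := FiniteField.exists_nonsquare (F := ZMod l) hchar
  have hlo : Odd l := hl.odd_of_ne_two hl2
  have hcast : ((a.val : ℤ) : ZMod l) = a := by
    rw [Int.cast_natCast, ZMod.natCast_zmod_val]
  have hJ : J((a.val : ℤ) | l) = -1 := by
    apply ZMod.nonsquare_iff_jacobiSym_eq_neg_one.2
    rw [hcast]
    exact ha
  rcases Nat.even_or_odd a.val with he | ho
  · refine ⟨a.val + l, he.add_odd hlo, ?_⟩
    rw [← hJ]
    apply jac_congr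
    rw [Nat.cast_add]
    exact ⟨1, by ring⟩
  · exact ⟨a.val, ho, hJ⟩

end CaseBAux

open CaseBAux
open scoped NumberTheorySymbols

/-- job C : (X^l+1)/(X+1) = l v^2 impossible for X = z^2, z odd, l odd prime dividing X + 1 -/
theorem caseB {z l v : ℕ} (hz : Odd z) (hl : l.Prime) (hl2 : l ≠ 2) (hd : l ∣ z ^ 2 + 1)
    (h : z ^ (2 * l) + 1 = (z ^ 2 + 1) * (l * v ^ 2)) : False := by
  have hX : z ^ 2 % 8 = 1 := sq_mod_eight hz
  have hlo : Odd l := hl.odd_of_ne_two hl2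
  obtain ⟨m, hm, hJm⟩ := exists_nonres hl hl2
  -- `Q l = l v²`
  have hQl : Q (z ^ 2) l = l * v ^ 2 := by
    apply Nat.eq_of_mul_eq_mul_left (Nat.succ_pos (z ^ 2))
    rw [Nat.succ_eq_add_one, Q_spec hlo, ← h, ← pow_mul]
  -- coprimality of `m` and `l`
  have hcop : Nat.Coprime l m := by
    rw [Nat.Prime.coprime_iff_not_dvd hl]
    intro hdv
    have : NeZero l := ⟨hl.ne_zero⟩
    have h0 : J((m : ℤ) | l) = 0 := by
      rw [jacobiSym.eq_zero_iff_not_coprime, Int.gcd_natCast_natCast, Nat.gcd_comm,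
        Nat.gcd_eq_left hdv]
      exact hl.one_lt.ne'
    rw [h0] at hJm
    norm_num at hJm
  have h1 := jac hz m hm l hlo hcop
  rw [hQl, Nat.cast_mul, Nat.cast_pow, jacobiSym.mul_left, jacobiSym.pow_left] at h1
  have h2 : J((l : ℤ) | Q (z ^ 2) m) = 1 := by
    rcases jacobiSym.trichotomy (v : ℤ) (Q (z ^ 2) m) with h3 | h3 | h3
    · rw [h3] at h1; norm_num at h1
    · rw [h3] at h1; simpa using h1
    · rw [h3] at h1; simpa using h1
  have h4 : J((Q (z ^ 2) m : ℤ) | l) = 1 := by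
    rw [jacobiSym.quadratic_reciprocity_one_mod_four (Q_mod_four hX hm) hlo]
    exact h2
  have h5 : J((Q (z ^ 2) m : ℤ) | l) = J((m : ℤ) | l) := jac_congr (Q_mod_l hm hd)
  rw [h4, hJm] at h5
  norm_num at h5

end Pool.Agent.H22.SO
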