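import Pool.Agent.H22.SO.Small

/-!
# Square orders: the classical families
-/

namespace Pool.Agent.H22.SO

theorem not_two_odd {x : ℕ} (hx : Odd x) : ¬ IsSquare (2 * x) := by
  rintro ⟨y, hy⟩
  have h2 : 2 ∣ y := by
    have : 2 ∣ y * y := ⟨x, hy.symm⟩
    rcases (Nat.Prime.dvd_mul Nat.prime_two).1 this with h | h <;> exact h
  obtain ⟨z, rfl⟩ := h2
  obtain ⟨t, rfl⟩ := hx
  have : 2 * (2 * t + 1) = 4 * (z * z) := by rw [hy]; ring
  omega

theorem pow4_sub {q : ℕ} : q ^ 4 - 1 = (q ^ 2 - 1) * (q ^ 2 + 1) := by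
  have h := Nat.sq_sub_sq (q ^ 2) 1
  have : q ^ 4 = (q ^ 2) ^ 2 := by ring
  rw [this]
  rw [one_pow] at h
  rw [h, mul_comm]

theorem pow2_sub {q : ℕ} : q ^ 2 - 1 = (q + 1) * (q - 1) := by
  have h := Nat.sq_sub_sq q 1
  simpa using h

theorem pow3_sub {q : ℕ} (hq : 1 ≤ q) : q ^ 3 - 1 = (q - 1) * (q ^ 2 + q + 1) := by
  obtain ⟨s, rfl⟩ : ∃ s, q = s + 1 := ⟨q - 1, by omega⟩
  rw [Nat.add_sub_cancel]
  have : (s + 1) ^ 3 = s * ((s + 1) ^ 2 + (s + 1) + 1) + 1 := by ring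
  omega

theorem pow3_add {q : ℕ} (hq : 1 ≤ q) : q ^ 3 + 1 = (q + 1) * (q * (q - 1) + 1) := by
  obtain ⟨s, rfl⟩ : ∃ s, q = s + 1 := ⟨q - 1, by omega⟩
  rw [Nat.add_sub_cancel]
  ring

theorem pow5_sub {q : ℕ} (hq : 1 ≤ q) :
    q ^ 5 - 1 = (q - 1) * (q ^ 4 + q ^ 3 + q ^ 2 + q + 1) := by
  obtain ⟨s, rfl⟩ : ∃ s, q = s + 1 := ⟨q - 1, by omega⟩
  rw [Nat.add_sub_cancel]
  have : (s + 1) ^ 5 = s * ((s + 1) ^ 4 + (s + 1) ^ 3 + (s + 1) ^ 2 + (s + 1) + 1) + 1 := by ring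
  omega

theorem pow5_add {q : ℕ} (hq : 1 ≤ q) :
    q ^ 5 + 1 = (q + 1) * (q ^ 3 * (q - 1) + q * (q - 1) + 1) := by
  obtain ⟨s, rfl⟩ : ∃ s, q = s + 1 := ⟨q - 1, by omega⟩
  rw [Nat.add_sub_cancel]
  ring

theorem gcd4_sub {q : ℕ} (hq : Odd q) :
    (q % 4 = 1 ∧ Nat.gcd 4 (q - 1) = 4) ∨ (q % 4 = 3 ∧ Nat.gcd 4 (q - 1) = 2) := by
  obtain ⟨t, ht⟩ := hq
  have h : q % 4 = 1 ∨ q % 4 = 3 := by omega
  rcases h with h | h
  · left
    refine ⟨h, ?_⟩
    have h1 : (q - 1) % 4 = 0 := by omega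
    rw [Nat.gcd_rec, h1]; simp
  · right
    refine ⟨h, ?_⟩
    have h1 : (q - 1) % 4 = 2 := by omega
    rw [Nat.gcd_rec, h1]; norm_num

theorem gcd4_add {q : ℕ} (hq : Odd q) :
    (q % 4 = 3 ∧ Nat.gcd 4 (q + 1) = 4) ∨ (q % 4 = 1 ∧ Nat.gcd 4 (q + 1) = 2) := by
  obtain ⟨t, ht⟩ := hq
  have h : q % 4 = 1 ∨ q % 4 = 3 := by omega
  rcases h with h | h
  · right
    refine ⟨h, ?_⟩
    have h1 : (q + 1) % 4 = 2 := by omega
    rw [Nat.gcd_rec, h1]; norm_num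
  · left
    refine ⟨h, ?_⟩
    have h1 : (q + 1) % 4 = 0 := by omega
    rw [Nat.gcd_rec, h1]; simp

theorem odd_gcd {p x : ℕ} (hp : Odd p) : Odd (Nat.gcd p x) :=
  Odd.of_dvd_nat hp (Nat.gcd_dvd_left _ _)

theorem psl2 {N q : ℕ} (hq : 2 ≤ q) (h : IsPSLOrder N 2 q) : ¬ IsSquare N := by
  intro hN
  obtain ⟨r, hr⟩ := psl_q hq h hN (by decide)
  have hr2 : 2 ≤ r := by
    by_contra hc
    have : r ≤ 1 := by omega
    nlinarith
  rw [IsPSLOrder] at h
  norm_num at h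
  rcases Nat.even_or_odd q with he | ho
  · have hg : Nat.gcd 2 (q - 1) = 1 := by
      obtain ⟨t, ht⟩ := he
      have : (q - 1) % 2 = 1 := by omega
      rw [Nat.gcd_rec, this]; simp
    rw [hg] at h
    have h1 : IsSquare (q ^ 2 - 1) := by
      refine square_of_mul hN (g := 1) (B := q) (by rw [h]; ring) ?_ (by simp)
      exact (coprime_self_sub (by omega) (by norm_num)).symm
    exact no_sq_pred hq h1
  · have hg : Nat.gcd 2 (q - 1) = 2 := by
      obtain ⟨t, ht⟩ := ho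
      have : (q - 1) % 2 = 0 := by omega
      rw [Nat.gcd_rec, this]; simp
    rw [hg] at h
    have hro : Odd r := by
      rw [hr] at ho
      exact (Nat.odd_mul.1 ho).1
    obtain ⟨t, ht⟩ := hro
    have h1 : r ^ 2 + 1 = 2 * (2 * (t * t + t) + 1) := by rw [ht]; ring
    have h2 : q ^ 2 - 1 = (r ^ 2 - 1) * (r ^ 2 + 1) := by
      rw [hr, pow2_sub, mul_comm]
      have : r * r = r ^ 2 := by ring
      rw [this]
    have h3 : N = (r ^ 2 - 1) * (r ^ 2 * (2 * (t * t + t) + 1)) := by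
      have : N * 2 = 2 * ((r ^ 2 - 1) * (r ^ 2 * (2 * (t * t + t) + 1))) := by
        rw [h, h2, h1, hr]; ring
      omega
    have hodd : Odd (2 * (t * t + t) + 1) := ⟨_, rfl⟩
    have h4 : IsSquare (r ^ 2 - 1) := by
      refine square_of_mul hN (g := 1) (B := r ^ 2 * (2 * (t * t + t) + 1)) (by rw [h3]; ring)
        ?_ (by simp)
      apply Nat.Coprime.mul_right
      · exact (Nat.Coprime.pow_left _ (coprime_self_sub (by omega) (by norm_num))).symm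
      · have := coprime_half (q := r) (k := 1) (by omega) hodd (by
          rw [pow_one, h1]; exact Dvd.intro_left _ rfl)
        rw [pow_one] at this
        exact this.symm
    exact no_sq_pred hr2 h4

theorem psl3 {N q : ℕ} (hq : 2 ≤ q) (h : IsPSLOrder N 3 q) : ¬ IsSquare N := by
  intro hN
  obtain ⟨r, hr⟩ := psl_q hq h hN (by decide)
  rw [IsPSLOrder] at h
  have hprod : ∏ i ∈ Finset.Icc 2 3, (q ^ i - 1) = (q ^ 2 - 1) * (q ^ 3 - 1) := by
    rw [Finset.prod_Icc_succ_top (by norm_num)]; simp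
  rw [hprod, pow2_sub, pow3_sub (by omega)] at h
  norm_num at h
  have hq1 : 1 ≤ q - 1 := by omega
  have h1 : N * Nat.gcd 3 (q - 1) = (r ^ 3 * (q - 1)) ^ 2 * ((q + 1) * (q ^ 2 + q + 1)) := by
    rw [h]
    have : q ^ 3 = (r ^ 3) ^ 2 := by rw [hr]; ring
    rw [this]; ring
  have hr0 : r ≠ 0 := by rintro rfl; omega
  have h2 := cofactor hN (mul_ne_zero (pow_ne_zero 3 hr0) (by omega)) h1
  rw [mul_assoc] at h2
  have hc : Nat.Coprime (q + 1) ((q ^ 2 + q + 1) * Nat.gcd 3 (q - 1)) := by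
    apply Nat.Coprime.mul_right
    · have : q ^ 2 + q + 1 = 1 + (q + 1) * q := by ring
      rw [this]; simp
    · rw [Nat.coprime_comm]
      have hg3 : Odd (Nat.gcd 3 (q - 1)) := odd_gcd (by decide)
      have h5 : Nat.gcd (Nat.gcd 3 (q - 1)) (q + 1) ∣ 2 := by
        have h6 : Nat.gcd (Nat.gcd 3 (q - 1)) (q + 1) ∣ q - 1 :=
          (Nat.gcd_dvd_left _ _).trans (Nat.gcd_dvd_right _ _)
        have h7 : Nat.gcd (Nat.gcd 3 (q - 1)) (q + 1) ∣ q + 1 := Nat.gcd_dvd_right _ _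
        have h8 := Nat.dvd_sub h7 h6
        have h9 : q + 1 - (q - 1) = 2 := by omega
        rwa [h9] at h8
      have h6 : Odd (Nat.gcd (Nat.gcd 3 (q - 1)) (q + 1)) := Odd.of_dvd_nat hg3 (Nat.gcd_dvd_left _ _)
      rcases (Nat.dvd_prime Nat.prime_two).1 h5 with h7 | h7
      · exact h7
      · rw [h7] at h6; exact absurd h6 (by decide)
  have h3 := sq_left_of_coprime hc h2
  rw [hr] at h3
  have : r * r + 1 = r ^ 2 + 1 := by ring
  rw [this] at h3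
  exact no_sq_succ (by omega) h3

theorem psl4 {N q : ℕ} (hq : 2 ≤ q) (h : IsPSLOrder N 4 q) : ¬ IsSquare N := by
  intro hN
  obtain ⟨ho, y, hy⟩ := psl_key (K := 1) hq le_rfl (by norm_num) (by norm_num) h hN
  rw [pow_one] at hy
  have hprod : ∏ i ∈ Finset.Icc 2 4, (q ^ i - 1) = (q ^ 2 - 1) * (q ^ 3 - 1) * (q ^ 4 - 1) := by
    rw [Finset.prod_Icc_succ_top (by norm_num), Finset.prod_Icc_succ_top (by norm_num)]; simp
  rw [IsPSLOrder, hprod, pow4_sub, pow3_sub (by omega), hy] at h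
  norm_num at h
  have hy0 : y ≠ 0 := by rintro rfl; omega
  have hq2 : q ^ 2 - 1 ≠ 0 := by
    have : 4 ≤ q ^ 2 := by nlinarith
    omega
  have h1 : N * Nat.gcd 4 (q - 1) = (q ^ 3 * (q ^ 2 - 1) * y) ^ 2 *
      (2 * ((q - 1) * (q ^ 2 + q + 1))) := by
    rw [h]; ring
  have h2 := cofactor hN (mul_ne_zero (mul_ne_zero (pow_ne_zero 3 (by omega)) hq2) hy0) h1
  rcases gcd4_sub ho with ⟨h4, hg⟩ | ⟨h4, hg⟩
  · rw [hg] at h2
    have h3 : 2 * ((q - 1) * (q ^ 2 + q + 1)) * 4 = (2 * ((q - 1) * (q ^ 2 + q + 1))) * 2 ^ 2 := by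
      ring
    rw [h3] at h2
    obtain ⟨a, ha⟩ := cube_sub_factor hq (Or.inr rfl) (cancel_sq (by norm_num) h2)
    have := psl4_eq (t := a) (by rw [ha]) hy h4
    subst this
    omega
  · rw [hg] at h2
    have h3 : 2 * ((q - 1) * (q ^ 2 + q + 1)) * 2 = (1 * ((q - 1) * (q ^ 2 + q + 1))) * 2 ^ 2 := by
      ring
    rw [h3] at h2
    obtain ⟨a, ha⟩ := cube_sub_factor hq (Or.inl rfl) (cancel_sq (by norm_num) h2)
    have h5 : a % 4 = 0 ∨ a % 4 = 1 ∨ a % 4 = 2 ∨ a % 4 = 3 := by omega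
    have h6 : q % 4 = (3 * (a % 4) ^ 2 + 1) % 4 := by
      rw [ha]; simp [Nat.add_mod, Nat.mul_mod, Nat.pow_mod]
    rcases h5 with h5 | h5 | h5 | h5 <;> rw [h5] at h6 <;> omega

theorem psl5 {N q : ℕ} (hq : 2 ≤ q) (h : IsPSLOrder N 5 q) : ¬ IsSquare N := by
  intro hN
  obtain ⟨ho, y, hy⟩ := psl_key (K := 1) hq le_rfl (by norm_num) (by norm_num) h hN
  rw [pow_one] at hy
  have hprod : ∏ i ∈ Finset.Icc 2 5, (q ^ i - 1) =
      (q ^ 2 - 1) * (q ^ 3 - 1) * (q ^ 4 - 1) * (q ^ 5 - 1) := by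
    rw [Finset.prod_Icc_succ_top (by norm_num), Finset.prod_Icc_succ_top (by norm_num),
      Finset.prod_Icc_succ_top (by norm_num)]; simp
  rw [IsPSLOrder, hprod, pow4_sub, pow3_sub (by omega), pow5_sub (by omega), hy] at h
  norm_num at h
  have hy0 : y ≠ 0 := by rintro rfl; omega
  have hq2 : q ^ 2 - 1 ≠ 0 := by
    have : 4 ≤ q ^ 2 := by nlinarith
    omega
  have h1 : N * Nat.gcd 5 (q - 1) = (q ^ 5 * (q ^ 2 - 1) * (q - 1) * y) ^ 2 *
      (2 * ((q ^ 2 + q + 1) * (q ^ 4 + q ^ 3 + q ^ 2 + q + 1))) := by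
    rw [h]; ring
  have h2 := cofactor hN (mul_ne_zero (mul_ne_zero (mul_ne_zero (pow_ne_zero 5 (by omega)) hq2)
    (by omega)) hy0) h1
  rw [mul_assoc] at h2
  refine not_two_odd ?_ h2
  have e2 : Odd (q ^ 2) := ho.pow
  have e3 : Odd (q ^ 3) := ho.pow
  have e4 : Odd (q ^ 4) := ho.pow
  refine Odd.mul (Odd.mul ?_ ?_) (odd_gcd (by decide))
  · exact (e2.add_odd ho).add_one
  · exact (((e4.add_odd e3).add_odd e2).add_odd ho).add_one

theorem psl_all {N n q : ℕ} (hn : 2 ≤ n) (hq : 2 ≤ q) (h : IsPSLOrder N n q) :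
    ¬ IsSquare N := by
  intro hN
  by_cases h8 : 8 ≤ n
  · obtain ⟨K, h1, h2⟩ := exists_log (n := n) (by omega)
    have h3 := three_le_log h2 h8
    obtain ⟨L, rfl⟩ : ∃ L, K = L + 1 := ⟨K - 1, by omega⟩
    obtain ⟨-, y, hy⟩ := psl_key hq (by omega : 1 ≤ L) h1 h2 h hN
    exact no_big hq (by omega) hy
  · have h67 : n = 6 ∨ n = 7 → False := by
      intro hn67
      have he : Odd (n * (n - 1) / 2) := by rcases hn67 with rfl | rfl <;> decide
      have hs := psl_q hq h hN he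
      obtain ⟨-, y, hy⟩ := psl_key (K := 1) hq le_rfl (by rcases hn67 with rfl | rfl <;> norm_num)
        (by rcases hn67 with rfl | rfl <;> norm_num) h hN
      exact no_square_q hq le_rfl hy hs
    have : n = 2 ∨ n = 3 ∨ n = 4 ∨ n = 5 ∨ n = 6 ∨ n = 7 := by omega
    rcases this with rfl | rfl | rfl | rfl | h6 | h7
    · exact psl2 hq h hN
    · exact psl3 hq h hN
    · exact psl4 hq h hN
    · exact psl5 hq h hN
    · exact h67 (Or.inl h6)
    · exact h67 (Or.inr h7)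

/-! ### unitary groups -/

theorem psu3 {N q : ℕ} (hq : 2 ≤ q) (h : IsPSUOrder N 3 q) : ¬ IsSquare N := by
  intro hN
  obtain ⟨r, hr⟩ := psu_q hq h hN (by decide)
  have hr2 : 2 ≤ r := by
    by_contra hc
    have : r ≤ 1 := by omega
    nlinarith
  have hprod : ∏ i ∈ Finset.Icc 2 3, (if Even i then q ^ i - 1 else q ^ i + 1) =
      (q ^ 2 - 1) * (q ^ 3 + 1) := by
    rw [Finset.prod_Icc_succ_top (by norm_num)]
    simp [show ¬ Even 3 by decide]
  rw [IsPSUOrder, hprod, pow2_sub, pow3_add (by omega)] at h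
  norm_num at h
  obtain ⟨s, hs⟩ : ∃ s, q = s + 1 := ⟨q - 1, by omega⟩
  have hs1 : q - 1 = s := by omega
  rw [hs1] at h
  have h1 : N * Nat.gcd 3 (q + 1) = (r ^ 3 * (q + 1)) ^ 2 * (s * (q * s + 1)) := by
    rw [h]
    have : q ^ 3 = (r ^ 3) ^ 2 := by rw [hr]; ring
    rw [this]; ring
  have hr0 : r ≠ 0 := by omega
  have h2 := cofactor hN (mul_ne_zero (pow_ne_zero 3 hr0) (by omega)) h1
  rw [mul_assoc] at h2
  have hc : Nat.Coprime s ((q * s + 1) * Nat.gcd 3 (q + 1)) := by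
    apply Nat.Coprime.mul_right
    · have : q * s + 1 = 1 + s * q := by ring
      rw [this]; simp
    · rw [Nat.coprime_comm]
      have hg3 : Odd (Nat.gcd 3 (q + 1)) := odd_gcd (by decide)
      have h5 : Nat.gcd (Nat.gcd 3 (q + 1)) s ∣ 2 := by
        have h6 : Nat.gcd (Nat.gcd 3 (q + 1)) s ∣ q + 1 :=
          (Nat.gcd_dvd_left _ _).trans (Nat.gcd_dvd_right _ _)
        have h7 : Nat.gcd (Nat.gcd 3 (q + 1)) s ∣ s := Nat.gcd_dvd_right _ _
        have h8 := Nat.dvd_sub h6 h7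
        have h9 : q + 1 - s = 2 := by omega
        rwa [h9] at h8
      have h6 : Odd (Nat.gcd (Nat.gcd 3 (q + 1)) s) := Odd.of_dvd_nat hg3 (Nat.gcd_dvd_left _ _)
      rcases (Nat.dvd_prime Nat.prime_two).1 h5 with h7 | h7
      · exact h7
      · rw [h7] at h6; exact absurd h6 (by decide)
  have h3 := sq_left_of_coprime hc h2
  have h4 : s = r ^ 2 - 1 := by
    have : r ^ 2 = r * r := by ring
    omega
  rw [h4] at h3
  exact no_sq_pred hr2 h3

theorem psu4 {N q : ℕ} (hq : 2 ≤ q) (h : IsPSUOrder N 4 q) : ¬ IsSquare N := by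
  intro hN
  obtain ⟨ho, y, hy⟩ := psu_key (K := 1) hq le_rfl (by norm_num) (by norm_num) h hN
  rw [pow_one] at hy
  have hprod : ∏ i ∈ Finset.Icc 2 4, (if Even i then q ^ i - 1 else q ^ i + 1) =
      (q ^ 2 - 1) * (q ^ 3 + 1) * (q ^ 4 - 1) := by
    rw [Finset.prod_Icc_succ_top (by norm_num), Finset.prod_Icc_succ_top (by norm_num)]
    simp [show ¬ Even 3 by decide, show Even 4 by decide]
  rw [IsPSUOrder, hprod, pow4_sub, pow3_add (by omega), hy] at h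
  norm_num at h
  have hy0 : y ≠ 0 := by rintro rfl; omega
  have hq2 : q ^ 2 - 1 ≠ 0 := by
    have : 4 ≤ q ^ 2 := by nlinarith
    omega
  have h1 : N * Nat.gcd 4 (q + 1) = (q ^ 3 * (q ^ 2 - 1) * y) ^ 2 *
      (2 * ((q + 1) * (q * (q - 1) + 1))) := by
    rw [h]; ring
  have h2 := cofactor hN (mul_ne_zero (mul_ne_zero (pow_ne_zero 3 (by omega)) hq2) hy0) h1
  rcases gcd4_add ho with ⟨h4, hg⟩ | ⟨h4, hg⟩
  · rw [hg] at h2
    have h3 : 2 * ((q + 1) * (q * (q - 1) + 1)) * 4 =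
        (2 * ((q + 1) * (q * (q - 1) + 1))) * 2 ^ 2 := by
      ring
    rw [h3] at h2
    obtain ⟨a, ha⟩ := cube_add_factor hq (Or.inr rfl) (cancel_sq (by norm_num) h2)
    exact psu4_eq (t := a) (by rw [ha]) hy h4
  · rw [hg] at h2
    have h3 : 2 * ((q + 1) * (q * (q - 1) + 1)) * 2 =
        (1 * ((q + 1) * (q * (q - 1) + 1))) * 2 ^ 2 := by
      ring
    rw [h3] at h2
    obtain ⟨a, ha⟩ := cube_add_factor hq (Or.inl rfl) (cancel_sq (by norm_num) h2)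
    have h5 : a % 4 = 0 ∨ a % 4 = 1 ∨ a % 4 = 2 ∨ a % 4 = 3 := by omega
    have h6 : (q + 1) % 4 = (3 * (a % 4) ^ 2) % 4 := by
      rw [ha]; simp [Nat.mul_mod, Nat.pow_mod]
    rcases h5 with h5 | h5 | h5 | h5 <;> rw [h5] at h6 <;> omega

theorem psu5 {N q : ℕ} (hq : 2 ≤ q) (h : IsPSUOrder N 5 q) : ¬ IsSquare N := by
  intro hN
  obtain ⟨ho, y, hy⟩ := psu_key (K := 1) hq le_rfl (by norm_num) (by norm_num) h hN
  rw [pow_one] at hy
  have hprod : ∏ i ∈ Finset.Icc 2 5, (if Even i then q ^ i - 1 else q ^ i + 1) =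
      (q ^ 2 - 1) * (q ^ 3 + 1) * (q ^ 4 - 1) * (q ^ 5 + 1) := by
    rw [Finset.prod_Icc_succ_top (by norm_num), Finset.prod_Icc_succ_top (by norm_num),
      Finset.prod_Icc_succ_top (by norm_num)]
    simp [show ¬ Even 3 by decide, show Even 4 by decide, show ¬ Even 5 by decide]
  rw [IsPSUOrder, hprod, pow4_sub, pow3_add (by omega), pow5_add (by omega), hy] at h
  norm_num at h
  have hy0 : y ≠ 0 := by rintro rfl; omega
  have hq2 : q ^ 2 - 1 ≠ 0 := by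
    have : 4 ≤ q ^ 2 := by nlinarith
    omega
  have h1 : N * Nat.gcd 5 (q + 1) = (q ^ 5 * (q ^ 2 - 1) * (q + 1) * y) ^ 2 *
      (2 * ((q * (q - 1) + 1) * (q ^ 3 * (q - 1) + q * (q - 1) + 1))) := by
    rw [h]; ring
  have h2 := cofactor hN (mul_ne_zero (mul_ne_zero (mul_ne_zero (pow_ne_zero 5 (by omega)) hq2)
    (by omega)) hy0) h1
  rw [mul_assoc] at h2
  refine not_two_odd ?_ h2
  have e1 : Even (q - 1) := by
    obtain ⟨t, ht⟩ := ho
    exact ⟨t, by omega⟩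
  refine Odd.mul (Odd.mul ?_ ?_) (odd_gcd (by decide))
  · exact (e1.mul_left _).add_one
  · exact ((e1.mul_left _).add (e1.mul_left _)).add_one

theorem psu_all {N n q : ℕ} (hn : 3 ≤ n) (hq : 2 ≤ q) (h : IsPSUOrder N n q) :
    ¬ IsSquare N := by
  intro hN
  by_cases h8 : 8 ≤ n
  · obtain ⟨K, h1, h2⟩ := exists_log (n := n) (by omega)
    have h3 := three_le_log h2 h8
    obtain ⟨L, rfl⟩ : ∃ L, K = L + 1 := ⟨K - 1, by omega⟩
    obtain ⟨-, y, hy⟩ := psu_key hq (by omega : 1 ≤ L) h1 h2 h hN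
    exact no_big hq (by omega) hy
  · have h67 : n = 6 ∨ n = 7 → False := by
      intro hn67
      have he : Odd (n * (n - 1) / 2) := by rcases hn67 with rfl | rfl <;> decide
      have hs := psu_q hq h hN he
      obtain ⟨-, y, hy⟩ := psu_key (K := 1) hq le_rfl (by rcases hn67 with rfl | rfl <;> norm_num)
        (by rcases hn67 with rfl | rfl <;> norm_num) h hN
      exact no_square_q hq le_rfl hy hs
    have : n = 3 ∨ n = 4 ∨ n = 5 ∨ n = 6 ∨ n = 7 := by omega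
    rcases this with rfl | rfl | rfl | h6 | h7
    · exact psu3 hq h hN
    · exact psu4 hq h hN
    · exact psu5 hq h hN
    · exact h67 (Or.inl h6)
    · exact h67 (Or.inr h7)

/-! ### symplectic and odd orthogonal groups -/

theorem psp_ge_three {N n q : ℕ} (hn : 3 ≤ n) (hq : 2 ≤ q) (h : IsPSpOrder N n q) :
    ¬ IsSquare N := by
  intro hN
  by_cases h4 : 4 ≤ n
  · obtain ⟨K, h1, h2⟩ := exists_log (n := n) (by omega)
    have h3 := two_le_log h2 h4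
    obtain ⟨-, y, hy⟩ := psp_key hq (by omega : 1 ≤ K) h1 h2 h hN
    exact no_big hq h3 hy
  · have : n = 3 := by omega
    subst this
    have hs := psp_q hq h hN (by decide)
    obtain ⟨-, y, hy⟩ := psp_key (K := 1) hq le_rfl (by norm_num) (by norm_num) h hN
    exact no_square_q hq le_rfl hy hs

theorem psp_two {N q : ℕ} (hq : IsPrimePow q) (h : IsPSpOrder N 2 q) :
    IsSquare N ↔ q.Prime ∧ ∃ y, q ^ 2 + 1 = 2 * y ^ 2 := by
  have hq2 : 2 ≤ q := hq.two_le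
  constructor
  · intro hN
    obtain ⟨ho, y, hy⟩ := psp_key (K := 1) hq2 le_rfl (by norm_num) (by norm_num) h hN
    rw [pow_one] at hy
    refine ⟨?_, y, hy⟩
    obtain ⟨p, k, hp, hk, rfl⟩ := (isPrimePow_nat_iff _).1 hq
    have := nsw_prime_power hp (by omega) hy
    rw [this, pow_one]
    exact hp
  · rintro ⟨hp, y, hy⟩
    have ho : Odd q := by
      by_contra he
      rw [Nat.not_odd_iff_even] at he
      obtain ⟨c, hc⟩ := he.pow_of_ne_zero (n := 2) (by norm_num)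
      omega
    have hg : Nat.gcd 2 (q - 1) = 2 := by
      obtain ⟨t, ht⟩ := ho
      have : (q - 1) % 2 = 0 := by omega
      rw [Nat.gcd_rec, this]; simp
    have hprod : ∏ i ∈ Finset.Icc 1 2, (q ^ (2 * i) - 1) = (q ^ 2 - 1) * (q ^ 4 - 1) := by
      rw [Finset.prod_Icc_succ_top (by norm_num)]; simp
    rw [IsPSpOrder, hprod, hg, pow4_sub, hy] at h
    refine ⟨q ^ 2 * (q ^ 2 - 1) * y, ?_⟩
    have : N * 2 = 2 * (q ^ 2 * (q ^ 2 - 1) * y * (q ^ 2 * (q ^ 2 - 1) * y)) := by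
      rw [h]; ring
    omega

/-! ### even orthogonal groups -/

theorem no_sq_quartic {q : ℕ} (hq : 1 ≤ q) : ¬ IsSquare (q ^ 4 + q ^ 2 + 1) := by
  have := no_sq_plus (q := q ^ 2) (Nat.one_le_pow _ _ hq)
  have h : q ^ 4 = (q ^ 2) ^ 2 := by ring
  rwa [h]

theorem pow6_sub {q : ℕ} : q ^ 6 - 1 = (q ^ 2 - 1) * (q ^ 4 + q ^ 2 + 1) := by
  rcases Nat.eq_zero_or_pos q with rfl | hq
  · rfl
  obtain ⟨s, hs⟩ : ∃ s, q ^ 2 = s + 1 := ⟨q ^ 2 - 1, by
    have : 1 ≤ q ^ 2 := Nat.one_le_pow _ _ hq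
    omega⟩
  have h6 : q ^ 6 = (q ^ 2) ^ 3 := by ring
  have h4 : q ^ 4 = (q ^ 2) ^ 2 := by ring
  rw [h6, h4, hs, Nat.add_sub_cancel]
  have : (s + 1) ^ 3 = s * ((s + 1) ^ 2 + (s + 1) + 1) + 1 := by ring
  omega

theorem prod3 {q : ℕ} : ∏ i ∈ Finset.Icc 1 (4 - 1), (q ^ (2 * i) - 1) =
    (q ^ 2 - 1) * (q ^ 4 - 1) * (q ^ 6 - 1) := by
  rw [show 4 - 1 = 3 from rfl, Finset.prod_Icc_succ_top (by norm_num),
    Finset.prod_Icc_succ_top (by norm_num)]
  simp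

theorem poplus_four {N q : ℕ} (hq : 2 ≤ q) (h : IsPOmegaPlusOrder N 4 q) : ¬ IsSquare N := by
  intro hN
  rw [IsPOmegaPlusOrder, prod3, pow6_sub] at h
  have hq2 : q ^ 2 - 1 ≠ 0 := by
    have : 4 ≤ q ^ 2 := by nlinarith
    omega
  have hq4 : q ^ 4 - 1 ≠ 0 := by
    rw [pow4_sub]
    exact mul_ne_zero hq2 (by positivity)
  have h1 : N * Nat.gcd 4 (q ^ 4 - 1) = (q ^ 6 * (q ^ 4 - 1) * (q ^ 2 - 1)) ^ 2 *
      (q ^ 4 + q ^ 2 + 1) := by
    rw [h]; ring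
  have h2 := cofactor hN (mul_ne_zero (mul_ne_zero (pow_ne_zero 6 (by omega)) hq4) hq2) h1
  rcases Nat.even_or_odd q with he | ho
  · have hg : Nat.gcd 4 (q ^ 4 - 1) = 1 := by
      have h3 : Odd (q ^ 4 - 1) := by
        obtain ⟨c, hc⟩ := he.pow_of_ne_zero (n := 4) (by norm_num)
        have : 1 ≤ q ^ 4 := Nat.one_le_pow _ _ (by omega)
        exact ⟨c - 1, by omega⟩
      exact (coprime_four h3).symm
    rw [hg, mul_one] at h2
    exact no_sq_quartic (by omega) h2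
  · have hg : Nat.gcd 4 (q ^ 4 - 1) = 4 := by
      have h3 : (q ^ 4 - 1) % 4 = 0 := by
        obtain ⟨t, ht⟩ := ho
        have : q ^ 4 = 4 * (4 * t ^ 4 + 8 * t ^ 3 + 6 * t ^ 2 + 2 * t) + 1 := by rw [ht]; ring
        omega
      rw [Nat.gcd_rec, h3]; simp
    rw [hg] at h2
    have h3 : (q ^ 4 + q ^ 2 + 1) * 4 = (q ^ 4 + q ^ 2 + 1) * 2 ^ 2 := by ring
    rw [h3] at h2
    exact no_sq_quartic (by omega) (cancel_sq (by norm_num) h2)

theorem pominus_four {N q : ℕ} (hq : 2 ≤ q) (h : IsPOmegaMinusOrder N 4 q) :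
    ¬ IsSquare N := by
  intro hN
  have h' : N * Nat.gcd 4 (q ^ 4 + 1) = (q ^ 2 ^ 2 + 1) * (q ^ (4 * (4 - 1)) *
      ∏ i ∈ Finset.Icc 1 (4 - 1), (q ^ (2 * i) - 1)) := by
    rw [IsPOmegaMinusOrder] at h
    rw [h, show (2 : ℕ) ^ 2 = 4 by norm_num]; ring
  obtain ⟨-, y, hy⟩ := key (k := 2) hq (by norm_num) hN h' (by
    intro A hA hA2
    refine (coprime_pow_self hA2).mul_right ?_
    refine Nat.Coprime.prod_right fun i hi => ?_
    rw [Finset.mem_Icc] at hi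
    refine coprime_aux (by omega) ?_ hA hA2
    intro hc
    have := Nat.le_of_dvd (by omega) hc
    omega) (by
    intro A hA hA2
    exact Nat.Coprime.coprime_dvd_right (Nat.gcd_dvd_left 4 _) (coprime_four hA))
  exact no_big hq le_rfl hy

theorem poplus_all {N n q : ℕ} (hn : 4 ≤ n) (hq : 2 ≤ q) (h : IsPOmegaPlusOrder N n q) :
    ¬ IsSquare N := by
  intro hN
  by_cases h5 : 5 ≤ n
  · obtain ⟨K, h1, h2⟩ := exists_log (n := n - 1) (by omega)
    have h3 := two_le_log h2 (by omega)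
    by_cases h4 : n < 2 ^ (K + 1)
    · obtain ⟨-, y, hy⟩ := poplus_key hq (by omega : 1 ≤ K) h1 h4 h hN
      exact no_big hq h3 hy
    · have h6 : n = 2 ^ (K + 1) := by omega
      obtain ⟨i, rfl⟩ : ∃ i, K = i + 2 := ⟨K - 2, by omega⟩
      subst h6
      exact poplus_pow_two hq h hN
  · have : n = 4 := by omega
    subst this
    exact poplus_four hq h hN

theorem pominus_all {N n q : ℕ} (hn : 4 ≤ n) (hq : 2 ≤ q) (h : IsPOmegaMinusOrder N n q) :
    ¬ IsSquare N := by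
  intro hN
  by_cases h5 : 5 ≤ n
  · obtain ⟨K, h1, h2⟩ := exists_log (n := n - 1) (by omega)
    have h3 := two_le_log h2 (by omega)
    obtain ⟨-, y, hy⟩ := pominus_key hq (by omega : 1 ≤ K) h1 h2 h hN
    exact no_big hq h3 hy
  · have : n = 4 := by omega
    subst this
    exact pominus_four hq h hN

end Pool.Agent.H22.SO
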