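import Mathlib

/-!
# The orders of the finite simple groups (classification table)

Every group order is written in the form `N * gcd = (product)`, which is the usual formula
`N = (product) / gcd`.
-/

namespace Pool.Agent.H22.SO

/-- `N = |PSL_n(q)|`. -/
def IsPSLOrder (N n q : ℕ) : Prop :=
  N * Nat.gcd n (q - 1) = q ^ (n * (n - 1) / 2) * ∏ i ∈ Finset.Icc 2 n, (q ^ i - 1)

/-- `N = |PSU_n(q)|` (over the field with `q^2` elements). -/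
def IsPSUOrder (N n q : ℕ) : Prop :=
  N * Nat.gcd n (q + 1) = q ^ (n * (n - 1) / 2) *
    ∏ i ∈ Finset.Icc 2 n, (if Even i then q ^ i - 1 else q ^ i + 1)

/-- `N = |PSp_{2n}(q)|`, which is also `|Ω_{2n+1}(q)|` for odd `q`. -/
def IsPSpOrder (N n q : ℕ) : Prop :=
  N * Nat.gcd 2 (q - 1) = q ^ (n ^ 2) * ∏ i ∈ Finset.Icc 1 n, (q ^ (2 * i) - 1)

/-- `N = |PΩ⁺_{2n}(q)|`. -/
def IsPOmegaPlusOrder (N n q : ℕ) : Prop :=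
  N * Nat.gcd 4 (q ^ n - 1) = q ^ (n * (n - 1)) * (q ^ n - 1) *
    ∏ i ∈ Finset.Icc 1 (n - 1), (q ^ (2 * i) - 1)

/-- `N = |PΩ⁻_{2n}(q)|`. -/
def IsPOmegaMinusOrder (N n q : ℕ) : Prop :=
  N * Nat.gcd 4 (q ^ n + 1) = q ^ (n * (n - 1)) * (q ^ n + 1) *
    ∏ i ∈ Finset.Icc 1 (n - 1), (q ^ (2 * i) - 1)

/-- The orders of the 26 sporadic simple groups and of the Tits group `²F₄(2)'`
(in this order: M11, M12, M22, M23, M24, J1, J2, J3, J4, HS, McL, He, Suz, Co3, Co2, Co1, Fi22,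
Fi23, Fi24', HN, Th, B, M, O'N, Ly, Ru, Tits). -/
def sporadicOrders : List ℕ :=
  [2 ^ 4 * 3 ^ 2 * 5 * 11,
   2 ^ 6 * 3 ^ 3 * 5 * 11,
   2 ^ 7 * 3 ^ 2 * 5 * 7 * 11,
   2 ^ 7 * 3 ^ 2 * 5 * 7 * 11 * 23,
   2 ^ 10 * 3 ^ 3 * 5 * 7 * 11 * 23,
   2 ^ 3 * 3 * 5 * 7 * 11 * 19,
   2 ^ 7 * 3 ^ 3 * 5 ^ 2 * 7,
   2 ^ 7 * 3 ^ 5 * 5 * 17 * 19,
   2 ^ 21 * 3 ^ 3 * 5 * 7 * 11 ^ 3 * 23 * 29 * 31 * 37 * 43,
   2 ^ 9 * 3 ^ 2 * 5 ^ 3 * 7 * 11,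
   2 ^ 7 * 3 ^ 6 * 5 ^ 3 * 7 * 11,
   2 ^ 10 * 3 ^ 3 * 5 ^ 2 * 7 ^ 3 * 17,
   2 ^ 13 * 3 ^ 7 * 5 ^ 2 * 7 * 11 * 13,
   2 ^ 10 * 3 ^ 7 * 5 ^ 3 * 7 * 11 * 23,
   2 ^ 18 * 3 ^ 6 * 5 ^ 3 * 7 * 11 * 23,
   2 ^ 21 * 3 ^ 9 * 5 ^ 4 * 7 ^ 2 * 11 * 13 * 23,
   2 ^ 17 * 3 ^ 9 * 5 ^ 2 * 7 * 11 * 13,
   2 ^ 18 * 3 ^ 13 * 5 ^ 2 * 7 * 11 * 13 * 17 * 23,
   2 ^ 21 * 3 ^ 16 * 5 ^ 2 * 7 ^ 3 * 11 * 13 * 17 * 23 * 29,
   2 ^ 14 * 3 ^ 6 * 5 ^ 6 * 7 * 11 * 19,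
   2 ^ 15 * 3 ^ 10 * 5 ^ 3 * 7 ^ 2 * 13 * 19 * 31,
   2 ^ 41 * 3 ^ 13 * 5 ^ 6 * 7 ^ 2 * 11 * 13 * 17 * 19 * 23 * 31 * 47,
   2 ^ 46 * 3 ^ 20 * 5 ^ 9 * 7 ^ 6 * 11 ^ 2 * 13 ^ 3 * 17 * 19 * 23 * 29 * 31 * 41 * 47 * 59 * 71,
   2 ^ 9 * 3 ^ 4 * 5 * 7 ^ 3 * 11 * 19 * 31,
   2 ^ 8 * 3 ^ 7 * 5 ^ 6 * 7 * 11 * 31 * 37 * 67,
   2 ^ 14 * 3 ^ 3 * 5 ^ 3 * 7 * 13 * 29,
   2 ^ 11 * 3 ^ 3 * 5 ^ 2 * 13]

/-- `N` is one of the orders in the classification table of the finite simple groups, the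
symplectic groups `PSp_{2n}(q)` excepted.  In the Lie type families `q` is any prime power; a few
small parameters for which the group is not simple are not excluded (they would only be a
restriction). -/
inductive NonSymplecticOrder (N : ℕ) : Prop
  /-- cyclic groups of prime order -/
  | cyclic (h : N.Prime)
  /-- alternating groups `A_n`, `n ≥ 5` -/
  | alternating (n : ℕ) (hn : 5 ≤ n) (h : 2 * N = n.factorial)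
  /-- `PSL_n(q)`, `n ≥ 2` -/
  | linear (n q : ℕ) (hn : 2 ≤ n) (hq : IsPrimePow q) (h : IsPSLOrder N n q)
  /-- `PSU_n(q)`, `n ≥ 3` -/
  | unitary (n q : ℕ) (hn : 3 ≤ n) (hq : IsPrimePow q) (h : IsPSUOrder N n q)
  /-- `Ω_{2n+1}(q)`, `n ≥ 3`, `q` odd -/
  | orthogonalOdd (n q : ℕ) (hn : 3 ≤ n) (hq : IsPrimePow q) (hodd : Odd q)
      (h : IsPSpOrder N n q)
  /-- `PΩ⁺_{2n}(q)`, `n ≥ 4` -/
  | orthogonalPlus (n q : ℕ) (hn : 4 ≤ n) (hq : IsPrimePow q) (h : IsPOmegaPlusOrder N n q)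
  /-- `PΩ⁻_{2n}(q)`, `n ≥ 4` -/
  | orthogonalMinus (n q : ℕ) (hn : 4 ≤ n) (hq : IsPrimePow q) (h : IsPOmegaMinusOrder N n q)
  /-- `G₂(q)` -/
  | G2 (q : ℕ) (hq : IsPrimePow q) (h : N = q ^ 6 * (q ^ 6 - 1) * (q ^ 2 - 1))
  /-- `³D₄(q)` -/
  | triality (q : ℕ) (hq : IsPrimePow q)
      (h : N = q ^ 12 * (q ^ 8 + q ^ 4 + 1) * (q ^ 6 - 1) * (q ^ 2 - 1))
  /-- `F₄(q)` -/
  | F4 (q : ℕ) (hq : IsPrimePow q)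
      (h : N = q ^ 24 * (q ^ 12 - 1) * (q ^ 8 - 1) * (q ^ 6 - 1) * (q ^ 2 - 1))
  /-- `E₆(q)` -/
  | E6 (q : ℕ) (hq : IsPrimePow q)
      (h : N * Nat.gcd 3 (q - 1) = q ^ 36 * (q ^ 12 - 1) * (q ^ 9 - 1) * (q ^ 8 - 1) *
        (q ^ 6 - 1) * (q ^ 5 - 1) * (q ^ 2 - 1))
  /-- `²E₆(q)` -/
  | twistedE6 (q : ℕ) (hq : IsPrimePow q)
      (h : N * Nat.gcd 3 (q + 1) = q ^ 36 * (q ^ 12 - 1) * (q ^ 9 + 1) * (q ^ 8 - 1) *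
        (q ^ 6 - 1) * (q ^ 5 + 1) * (q ^ 2 - 1))
  /-- `E₇(q)` -/
  | E7 (q : ℕ) (hq : IsPrimePow q)
      (h : N * Nat.gcd 2 (q - 1) = q ^ 63 * (q ^ 18 - 1) * (q ^ 14 - 1) * (q ^ 12 - 1) *
        (q ^ 10 - 1) * (q ^ 8 - 1) * (q ^ 6 - 1) * (q ^ 2 - 1))
  /-- `E₈(q)` -/
  | E8 (q : ℕ) (hq : IsPrimePow q)
      (h : N = q ^ 120 * (q ^ 30 - 1) * (q ^ 24 - 1) * (q ^ 20 - 1) * (q ^ 18 - 1) *
        (q ^ 14 - 1) * (q ^ 12 - 1) * (q ^ 8 - 1) * (q ^ 2 - 1))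
  /-- Suzuki groups `²B₂(q)`, `q = 2^(2m+1)` -/
  | suzuki (m q : ℕ) (hq : q = 2 ^ (2 * m + 1)) (h : N = q ^ 2 * (q ^ 2 + 1) * (q - 1))
  /-- small Ree groups `²G₂(q)`, `q = 3^(2m+1)` -/
  | ree (m q : ℕ) (hq : q = 3 ^ (2 * m + 1)) (h : N = q ^ 3 * (q ^ 3 + 1) * (q - 1))
  /-- large Ree groups `²F₄(q)`, `q = 2^(2m+1)` -/
  | largeRee (m q : ℕ) (hq : q = 2 ^ (2 * m + 1))
      (h : N = q ^ 12 * (q ^ 6 + 1) * (q ^ 4 - 1) * (q ^ 3 + 1) * (q - 1))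
  /-- the 26 sporadic groups and the Tits group -/
  | sporadic (h : N ∈ sporadicOrders)

/-- The projective symplectic group `PSp_{2n}(F)`: the symplectic group (Mathlib's group of
`2n × 2n` matrices `A` with `A J Aᵀ = J`) modulo its centre. -/
abbrev PSp (n : ℕ) (F : Type) [CommRing F] : Type :=
  Matrix.symplecticGroup (Fin n) F ⧸ Subgroup.center (Matrix.symplecticGroup (Fin n) F)

/-- `G` satisfies the classification table: its order is one of the non-symplectic orders of the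
table, or `G` is isomorphic to `PSp_{2n}(F)` for a finite field `F` and `n ≥ 2`, and has the order
given by the usual formula. -/
def InTable (G : Type) [Group G] : Prop :=
  NonSymplecticOrder (Nat.card G) ∨
    ∃ n : ℕ, 2 ≤ n ∧ ∃ (F : Type) (_ : Field F) (_ : Finite F),
      IsPSpOrder (Nat.card G) n (Nat.card F) ∧ Nonempty (G ≃* PSp n F)

end Pool.Agent.H22.SO
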