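import Pool.Agent.H22.SO.Classical

/-!
# Square orders: exceptional, sporadic, cyclic and alternating groups
-/

namespace Pool.Agent.H22.SO

theorem phi0 {q : ℕ} : phi q 0 = q ^ 2 * (q ^ 2 - 1) + 1 := by
  unfold phi; simp

theorem pow12_sub {q : ℕ} (hq : 1 ≤ q) :
    q ^ 12 - 1 = phi q 0 * ((q ^ 2 + 1) * (q ^ 6 - 1)) := by
  have h1 : q ^ 12 = (q ^ 6) ^ 2 := by ring
  have h2 : (q ^ 6) ^ 2 - 1 = (q ^ 6 + 1) * (q ^ 6 - 1) := by
    have h := Nat.sq_sub_sq (q ^ 6) 1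
    simpa using h
  rw [h1, h2, ← phi_mul hq, phi0]; ring

theorem pow24_sub {q : ℕ} (hq : 1 ≤ q) :
    q ^ 24 - 1 = phi q 1 * ((q ^ 4 + 1) * (q ^ 12 - 1)) := by
  have h1 : q ^ 24 = (q ^ 12) ^ 2 := by ring
  have h2 : (q ^ 12) ^ 2 - 1 = (q ^ 12 + 1) * (q ^ 12 - 1) := by
    have h := Nat.sq_sub_sq (q ^ 12) 1
    simpa using h
  have h3 := phi_mul (X := q ^ 2 ^ 1) (Nat.one_le_pow _ _ hq)
  have h4 : q ^ 12 + 1 = phi q 1 * (q ^ 4 + 1) := by
    unfold phi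
    have e1 : q ^ 12 = (q ^ 2 ^ 1) ^ 6 := by ring
    have e2 : q ^ 4 = (q ^ 2 ^ 1) ^ 2 := by ring
    rw [e1, e2, h3]
  rw [h1, h2, h4]; ring

theorem c0 {q d : ℕ} (hq : 1 ≤ q) (hd : ¬ 12 ∣ d) : Nat.Coprime (phi q 0) (q ^ d - 1) :=
  phi_coprime hq (by simpa using hd)

theorem c0' {q d : ℕ} (hq : 1 ≤ q) (hd : ¬ 12 ∣ 2 * d) : Nat.Coprime (phi q 0) (q ^ d + 1) :=
  phi_coprime_add hq (by simpa using hd)

theorem c1 {q d : ℕ} (hq : 1 ≤ q) (hd : ¬ 24 ∣ d) : Nat.Coprime (phi q 1) (q ^ d - 1) :=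
  phi_coprime hq (by simpa using hd)

theorem c1' {q d : ℕ} (hq : 1 ≤ q) (hd : ¬ 24 ∣ 2 * d) : Nat.Coprime (phi q 1) (q ^ d + 1) :=
  phi_coprime_add hq (by simpa using hd)

theorem phi_two {q i : ℕ} : Nat.Coprime (phi q i) 2 := by
  rw [Nat.coprime_comm]
  exact (Nat.coprime_two_left).2 phi_odd

theorem g2 {N q : ℕ} (hq : 2 ≤ q) (h : N = q ^ 6 * (q ^ 6 - 1) * (q ^ 2 - 1)) :
    ¬ IsSquare N := by
  intro hN
  rw [pow6_sub] at h
  have hq2 : q ^ 2 - 1 ≠ 0 := by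
    have : 4 ≤ q ^ 2 := by nlinarith
    omega
  have h1 : N * 1 = (q ^ 3 * (q ^ 2 - 1)) ^ 2 * (q ^ 4 + q ^ 2 + 1) := by
    rw [h]; ring
  have h2 := cofactor hN (mul_ne_zero (pow_ne_zero 3 (by omega)) hq2) h1
  rw [mul_one] at h2
  exact no_sq_quartic (by omega) h2

theorem d4 {N q : ℕ} (hq : 2 ≤ q)
    (h : N = q ^ 12 * (q ^ 8 + q ^ 4 + 1) * (q ^ 6 - 1) * (q ^ 2 - 1)) : ¬ IsSquare N := by
  intro hN
  have hq1 : 1 ≤ q := by omega
  have h8 : q ^ 8 + q ^ 4 + 1 = phi q 0 * (q ^ 4 + q ^ 2 + 1) := by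
    rw [phi0]
    obtain ⟨s, hs⟩ : ∃ s, q ^ 2 = s + 1 := ⟨q ^ 2 - 1, by
      have : 1 ≤ q ^ 2 := Nat.one_le_pow _ _ hq1
      omega⟩
    have e8 : q ^ 8 = (q ^ 2) ^ 4 := by ring
    have e4 : q ^ 4 = (q ^ 2) ^ 2 := by ring
    rw [e8, e4, hs, Nat.add_sub_cancel]; ring
  have h1 : N * 1 = phi q 0 * (q ^ 12 * ((q ^ 4 + q ^ 2 + 1) * ((q ^ 6 - 1) * (q ^ 2 - 1)))) := by
    rw [h, h8]; ring
  refine key12 hq hN h1 ?_ (by simp)
  refine (phi_coprime_pow hq1).mul_right (Nat.Coprime.mul_right ?_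
    ((c0 hq1 (by norm_num)).mul_right (c0 hq1 (by norm_num))))
  exact Nat.Coprime.coprime_dvd_right (by rw [pow6_sub]; exact Dvd.intro_left _ rfl)
    (c0 (d := 6) hq1 (by norm_num))

theorem f4 {N q : ℕ} (hq : 2 ≤ q)
    (h : N = q ^ 24 * (q ^ 12 - 1) * (q ^ 8 - 1) * (q ^ 6 - 1) * (q ^ 2 - 1)) :
    ¬ IsSquare N := by
  intro hN
  have hq1 : 1 ≤ q := by omega
  have h1 : N * 1 = phi q 0 * (q ^ 24 * ((q ^ 2 + 1) * ((q ^ 6 - 1) *
      ((q ^ 8 - 1) * ((q ^ 6 - 1) * (q ^ 2 - 1)))))) := by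
    rw [h, pow12_sub hq1]; ring
  refine key12 hq hN h1 ?_ (by simp)
  exact (phi_coprime_pow hq1).mul_right ((c0' hq1 (by norm_num)).mul_right
    ((c0 hq1 (by norm_num)).mul_right ((c0 hq1 (by norm_num)).mul_right
      ((c0 hq1 (by norm_num)).mul_right (c0 hq1 (by norm_num))))))

theorem e6 {N q : ℕ} (hq : 2 ≤ q)
    (h : N * Nat.gcd 3 (q - 1) = q ^ 36 * (q ^ 12 - 1) * (q ^ 9 - 1) * (q ^ 8 - 1) *
        (q ^ 6 - 1) * (q ^ 5 - 1) * (q ^ 2 - 1)) : ¬ IsSquare N := by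
  intro hN
  have hq1 : 1 ≤ q := by omega
  have h1 : N * Nat.gcd 3 (q - 1) = phi q 0 * (q ^ 36 * ((q ^ 2 + 1) * ((q ^ 6 - 1) *
      ((q ^ 9 - 1) * ((q ^ 8 - 1) * ((q ^ 6 - 1) * ((q ^ 5 - 1) * (q ^ 2 - 1)))))))) := by
    rw [h, pow12_sub hq1]; ring
  refine key12 hq hN h1 ?_ ?_
  · exact (phi_coprime_pow hq1).mul_right ((c0' hq1 (by norm_num)).mul_right
      ((c0 hq1 (by norm_num)).mul_right ((c0 hq1 (by norm_num)).mul_right
        ((c0 hq1 (by norm_num)).mul_right ((c0 hq1 (by norm_num)).mul_right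
          ((c0 hq1 (by norm_num)).mul_right (c0 hq1 (by norm_num))))))))
  · apply Nat.Coprime.coprime_dvd_right (Nat.gcd_dvd_right _ _)
    simpa using c0 (d := 1) hq1 (by norm_num)

theorem te6 {N q : ℕ} (hq : 2 ≤ q)
    (h : N * Nat.gcd 3 (q + 1) = q ^ 36 * (q ^ 12 - 1) * (q ^ 9 + 1) * (q ^ 8 - 1) *
        (q ^ 6 - 1) * (q ^ 5 + 1) * (q ^ 2 - 1)) : ¬ IsSquare N := by
  intro hN
  have hq1 : 1 ≤ q := by omega
  have h1 : N * Nat.gcd 3 (q + 1) = phi q 0 * (q ^ 36 * ((q ^ 2 + 1) * ((q ^ 6 - 1) *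
      ((q ^ 9 + 1) * ((q ^ 8 - 1) * ((q ^ 6 - 1) * ((q ^ 5 + 1) * (q ^ 2 - 1)))))))) := by
    rw [h, pow12_sub hq1]; ring
  refine key12 hq hN h1 ?_ ?_
  · exact (phi_coprime_pow hq1).mul_right ((c0' hq1 (by norm_num)).mul_right
      ((c0 hq1 (by norm_num)).mul_right ((c0' hq1 (by norm_num)).mul_right
        ((c0 hq1 (by norm_num)).mul_right ((c0 hq1 (by norm_num)).mul_right
          ((c0' hq1 (by norm_num)).mul_right (c0 hq1 (by norm_num))))))))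
  · apply Nat.Coprime.coprime_dvd_right (Nat.gcd_dvd_right _ _)
    simpa using c0' (d := 1) hq1 (by norm_num)

theorem e7 {N q : ℕ} (hq : 2 ≤ q)
    (h : N * Nat.gcd 2 (q - 1) = q ^ 63 * (q ^ 18 - 1) * (q ^ 14 - 1) * (q ^ 12 - 1) *
        (q ^ 10 - 1) * (q ^ 8 - 1) * (q ^ 6 - 1) * (q ^ 2 - 1)) : ¬ IsSquare N := by
  intro hN
  have hq1 : 1 ≤ q := by omega
  have h1 : N * Nat.gcd 2 (q - 1) = phi q 0 * (q ^ 63 * ((q ^ 2 + 1) * ((q ^ 6 - 1) *
      ((q ^ 18 - 1) * ((q ^ 14 - 1) * ((q ^ 10 - 1) * ((q ^ 8 - 1) *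
        ((q ^ 6 - 1) * (q ^ 2 - 1))))))))) := by
    rw [h, pow12_sub hq1]; ring
  refine key12 hq hN h1 ?_ ?_
  · exact (phi_coprime_pow hq1).mul_right ((c0' hq1 (by norm_num)).mul_right
      ((c0 hq1 (by norm_num)).mul_right ((c0 hq1 (by norm_num)).mul_right
        ((c0 hq1 (by norm_num)).mul_right ((c0 hq1 (by norm_num)).mul_right
          ((c0 hq1 (by norm_num)).mul_right ((c0 hq1 (by norm_num)).mul_right
            (c0 hq1 (by norm_num)))))))))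
  · exact Nat.Coprime.coprime_dvd_right (Nat.gcd_dvd_left _ _) phi_two

theorem e8 {N q : ℕ} (hq : 2 ≤ q)
    (h : N = q ^ 120 * (q ^ 30 - 1) * (q ^ 24 - 1) * (q ^ 20 - 1) * (q ^ 18 - 1) *
        (q ^ 14 - 1) * (q ^ 12 - 1) * (q ^ 8 - 1) * (q ^ 2 - 1)) : ¬ IsSquare N := by
  intro hN
  have hq1 : 1 ≤ q := by omega
  have h1 : N * 1 = phi q 1 * (q ^ 120 * ((q ^ 4 + 1) * ((q ^ 12 - 1) *
      ((q ^ 30 - 1) * ((q ^ 20 - 1) * ((q ^ 18 - 1) * ((q ^ 14 - 1) *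
        ((q ^ 12 - 1) * ((q ^ 8 - 1) * (q ^ 2 - 1)))))))))) := by
    rw [h, pow24_sub hq1]; ring
  refine key12 hq hN h1 ?_ (by simp)
  exact (phi_coprime_pow hq1).mul_right ((c1' hq1 (by norm_num)).mul_right
    ((c1 hq1 (by norm_num)).mul_right ((c1 hq1 (by norm_num)).mul_right
      ((c1 hq1 (by norm_num)).mul_right ((c1 hq1 (by norm_num)).mul_right
        ((c1 hq1 (by norm_num)).mul_right ((c1 hq1 (by norm_num)).mul_right
          ((c1 hq1 (by norm_num)).mul_right (c1 hq1 (by norm_num))))))))))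

theorem suzuki {N m q : ℕ} (hq : q = 2 ^ (2 * m + 1))
    (h : N = q ^ 2 * (q ^ 2 + 1) * (q - 1)) : ¬ IsSquare N := by
  intro hN
  have hev : Even q := by
    rw [hq]; exact (even_two).pow_of_ne_zero (by omega)
  have hq2 : 2 ≤ q := by
    rw [hq]
    calc 2 = 2 ^ 1 := by norm_num
      _ ≤ 2 ^ (2 * m + 1) := Nat.pow_le_pow_right (by norm_num) (by omega)
  have h1 : N * 1 = (q ^ 2 ^ 1 + 1) * (q ^ 2 * (q ^ 1 - 1)) := by
    rw [h, pow_one, pow_one]; ring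
  obtain ⟨ho, -⟩ := key (k := 1) hq2 le_rfl hN h1 (by
    intro A hA hA2
    refine (coprime_pow_self hA2).mul_right (coprime_aux (by omega) (by norm_num) hA hA2))
    (by intro A _ _; simp)
  exact (Nat.not_even_iff_odd.2 ho) hev

theorem ree {N m q : ℕ} (hq : q = 3 ^ (2 * m + 1))
    (h : N = q ^ 3 * (q ^ 3 + 1) * (q - 1)) : ¬ IsSquare N := by
  intro hN
  have hq2 : 2 ≤ q := by
    rw [hq]
    calc 2 ≤ 3 ^ 1 := by norm_num
      _ ≤ 3 ^ (2 * m + 1) := Nat.pow_le_pow_right (by norm_num) (by omega)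
  have h1 : N * 1 = q ^ 3 * ((q ^ 3 + 1) * (q ^ 1 - 1)) := by
    rw [h, pow_one]; ring
  have h2 : IsSquare (q ^ 3) := by
    refine square_of_mul hN h1 ?_ (by simp)
    exact Nat.Coprime.pow_left _ ((coprime_self_add (by norm_num)).mul_right
      (coprime_self_sub (by omega) le_rfl))
  have h3 := isSquare_of_pow (by omega) (by decide) h2
  rw [hq] at h3
  have h4 := isSquare_of_pow (by norm_num) ⟨m, rfl⟩ h3
  obtain ⟨y, hy⟩ := h4
  have : y < 2 := by nlinarith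
  interval_cases y <;> omega

theorem largeRee {N m q : ℕ} (hq : q = 2 ^ (2 * m + 1))
    (h : N = q ^ 12 * (q ^ 6 + 1) * (q ^ 4 - 1) * (q ^ 3 + 1) * (q - 1)) : ¬ IsSquare N := by
  intro hN
  have hq2 : 2 ≤ q := by
    rw [hq]
    calc 2 = 2 ^ 1 := by norm_num
      _ ≤ 2 ^ (2 * m + 1) := Nat.pow_le_pow_right (by norm_num) (by omega)
  have hq1 : 1 ≤ q := by omega
  have h6 : q ^ 6 + 1 = phi q 0 * (q ^ 2 + 1) := by
    rw [phi0, phi_mul hq1]
  have h1 : N * 1 = phi q 0 * (q ^ 12 * ((q ^ 2 + 1) * ((q ^ 4 - 1) * ((q ^ 3 + 1) *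
      (q ^ 1 - 1))))) := by
    rw [h, h6, pow_one]; ring
  refine key12 hq2 hN h1 ?_ (by simp)
  exact (phi_coprime_pow hq1).mul_right ((c0' hq1 (by norm_num)).mul_right
    ((c0 hq1 (by norm_num)).mul_right ((c0' hq1 (by norm_num)).mul_right
      (c0 hq1 (by norm_num)))))

theorem not_sq_of_exact {N p : ℕ} (hp : p.Prime) (h1 : p ∣ N) (h2 : ¬ p ^ 2 ∣ N) :
    ¬ IsSquare N := by
  rintro ⟨y, hy⟩
  apply h2
  have h3 : p ∣ y := by
    rw [hy] at h1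
    rcases (Nat.Prime.dvd_mul hp).1 h1 with h | h <;> exact h
  rw [hy, pow_two]
  exact mul_dvd_mul h3 h3

theorem sporadic {N : ℕ} (h : N ∈ sporadicOrders) : ¬ IsSquare N := by
  have key : ∀ N ∈ sporadicOrders, (∃ p ∈ [5, 7, 11, 13, 17], (p ∣ N ∧ ¬ p ^ 2 ∣ N)) := by
    decide
  obtain ⟨p, hp, h1, h2⟩ := key N h
  have hpp : p.Prime := by
    have : ∀ p ∈ [5, 7, 11, 13, 17], p.Prime := by decide
    exact this p hp
  exact not_sq_of_exact hpp h1 h2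

theorem alternating {N n : ℕ} (hn : 5 ≤ n) (h : 2 * N = n.factorial) : ¬ IsSquare N := by
  obtain ⟨p, hp, h1, h2⟩ := Nat.exists_prime_lt_and_le_two_mul (n / 2) (by omega)
  have hp3 : 3 ≤ p := by omega
  have hp2 : p ≠ 2 := by omega
  apply not_sq_of_exact hp
  · have h3 : p ∣ n.factorial := (Nat.Prime.dvd_factorial hp).2 (by omega)
    rw [← h] at h3
    rcases (Nat.Prime.dvd_mul hp).1 h3 with h4 | h4
    · exact absurd ((Nat.prime_dvd_prime_iff_eq hp Nat.prime_two).1 h4) hp2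
    · exact h4
  · intro hc
    have h3 : p ^ 2 ∣ n.factorial := by rw [← h]; exact hc.mul_left 2
    haveI : Fact p.Prime := ⟨hp⟩
    have h4 := (padicValNat_dvd_iff_le (Nat.factorial_ne_zero n)).1 h3
    have hlog : Nat.log p n < 2 := by
      apply Nat.log_lt_of_lt_pow (by omega)
      have : n < 2 * p := by omega
      nlinarith
    rw [padicValNat_factorial hlog] at h4
    simp at h4
    have h5 : n / p < 2 := by
      rw [Nat.div_lt_iff_lt_mul (by omega)]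
      omega
    omega

/-- **No order in the classification table outside the symplectic family is a square.** -/
theorem nonSymplectic {N : ℕ} (h : NonSymplecticOrder N) : ¬ IsSquare N := by
  cases h with
  | cyclic h => exact h.prime.irreducible.not_isSquare
  | alternating n hn h => exact alternating hn h
  | linear n q hn hq h => exact psl_all hn hq.two_le h
  | unitary n q hn hq h => exact psu_all hn hq.two_le h
  | orthogonalOdd n q hn hq hodd h => exact psp_ge_three hn hq.two_le h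
  | orthogonalPlus n q hn hq h => exact poplus_all hn hq.two_le h
  | orthogonalMinus n q hn hq h => exact pominus_all hn hq.two_le h
  | G2 q hq h => exact g2 hq.two_le h
  | triality q hq h => exact d4 hq.two_le h
  | F4 q hq h => exact f4 hq.two_le h
  | E6 q hq h => exact e6 hq.two_le h
  | twistedE6 q hq h => exact te6 hq.two_le h
  | E7 q hq h => exact e7 hq.two_le h
  | E8 q hq h => exact e8 hq.two_le h
  | suzuki m q hq h => exact suzuki hq h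
  | ree m q hq h => exact ree hq h
  | largeRee m q hq h => exact largeRee hq h
  | sporadic h => exact sporadic h

end Pool.Agent.H22.SO
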