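import Pool.Agent.H22.SO.Pell

/-!
# The equations of `PSL_4(q)` and `PSU_4(q)`
-/

namespace Pool.Agent.H22.SO

theorem even_of_six_sq {t k : ℕ} (h : 6 * t ^ 2 = 4 * k) : ∃ c, t = 2 * c := by
  have h1 : 2 ∣ t ^ 2 := by omega
  obtain ⟨c, hc⟩ := Nat.prime_two.dvd_of_dvd_pow h1
  exact ⟨c, hc⟩

theorem emod_natAbs_sq {a b : ℤ} (h : (3 : ℤ) ∣ a ^ 2 - b ^ 2) :
    a.natAbs ^ 2 % 3 = b.natAbs ^ 2 % 3 := by
  have h1 : ((a.natAbs ^ 2 : ℕ) : ℤ) = a ^ 2 := by rw [Nat.cast_pow, Int.natCast_natAbs, sq_abs]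
  have h2 : ((b.natAbs ^ 2 : ℕ) : ℤ) = b ^ 2 := by rw [Nat.cast_pow, Int.natCast_natAbs, sq_abs]
  omega

theorem psl4_eq {q t y : ℕ} (h1 : q = 6 * t ^ 2 + 1) (h2 : q ^ 2 + 1 = 2 * y ^ 2)
    (h4 : q % 4 = 1) : t = 0 := by
  obtain ⟨c, rfl⟩ : ∃ c, t = 2 * c :=
    even_of_six_sq (k := q / 4) (by omega)
  have hy0 : 0 < y := by
    apply Nat.pos_of_ne_zero; rintro rfl; omega
  have hq : (q : ℤ) = 24 * (c : ℤ) ^ 2 + 1 := by rw [h1]; push_cast; ring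
  have hyz : (y : ℤ) ^ 2 = (12 * (c : ℤ) ^ 2 + 1) ^ 2 + (12 * (c : ℤ) ^ 2) ^ 2 := by
    have : (q : ℤ) ^ 2 + 1 = 2 * (y : ℤ) ^ 2 := by exact_mod_cast h2
    rw [hq] at this
    nlinarith
  have hP : PythagoreanTriple (12 * (c : ℤ) ^ 2 + 1) (12 * (c : ℤ) ^ 2) (y : ℤ) := by
    unfold PythagoreanTriple
    nlinarith
  have hg : Int.gcd (12 * (c : ℤ) ^ 2 + 1) (12 * (c : ℤ) ^ 2) = 1 := by
    rw [Int.gcd_comm]
    simp
  obtain ⟨m, n, hx, hy, hz, hgc, hpar, hm⟩ :=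
    hP.coprime_classification' hg (by omega) (by exact_mod_cast hy0)
  have hw : (m - n) ^ 2 = 2 * n ^ 2 + 1 := by nlinarith
  have hmn : m * n = 6 * (c : ℤ) ^ 2 := by nlinarith
  have c1 : (m - n).natAbs ^ 2 = 2 * n.natAbs ^ 2 + 1 := by
    zify
    rw [sq_abs, sq_abs]; exact hw
  have c2 : m.natAbs * n.natAbs = 6 * c ^ 2 := by
    rw [← Int.natAbs_mul, hmn]
    zify
    rw [abs_of_nonneg (by positivity)]
  have hn := core c1 c2 hgc (fun h3 => by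
    apply emod_natAbs_sq
    have h5 : (3 : ℤ) ∣ m := by
      have := Int.natCast_dvd_natCast.2 h3
      rwa [Int.natCast_natAbs, dvd_abs] at this
    have : (m - n) ^ 2 - n ^ 2 = m * (m - 2 * n) := by ring
    rw [this]
    exact h5.mul_right _)
  rw [hn] at c2
  have : c ^ 2 = 0 := by omega
  have := pow_eq_zero_iff (n := 2) (by norm_num) |>.1 this
  omega

theorem psu4_eq {q t y : ℕ} (h1 : q + 1 = 6 * t ^ 2) (h2 : q ^ 2 + 1 = 2 * y ^ 2)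
    (h4 : q % 4 = 3) : False := by
  obtain ⟨c, rfl⟩ : ∃ c, t = 2 * c :=
    even_of_six_sq (k := (q + 1) / 4) (by omega)
  have hy0 : 0 < y := by
    apply Nat.pos_of_ne_zero; rintro rfl; omega
  have hq : (q : ℤ) = 24 * (c : ℤ) ^ 2 - 1 := by
    have : (q : ℤ) + 1 = 6 * (2 * (c : ℤ)) ^ 2 := by exact_mod_cast h1
    linarith
  have hyz : (y : ℤ) ^ 2 = (12 * (c : ℤ) ^ 2 - 1) ^ 2 + (12 * (c : ℤ) ^ 2) ^ 2 := by
    have : (q : ℤ) ^ 2 + 1 = 2 * (y : ℤ) ^ 2 := by exact_mod_cast h2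
    rw [hq] at this
    nlinarith
  have hP : PythagoreanTriple (12 * (c : ℤ) ^ 2 - 1) (12 * (c : ℤ) ^ 2) (y : ℤ) := by
    unfold PythagoreanTriple
    nlinarith
  have hg : Int.gcd (12 * (c : ℤ) ^ 2 - 1) (12 * (c : ℤ) ^ 2) = 1 := by
    rw [← Int.isCoprime_iff_gcd_eq_one]
    exact ⟨-1, 1, by ring⟩
  obtain ⟨m, n, hx, hy, hz, hgc, hpar, hm⟩ :=
    hP.coprime_classification' hg (by omega) (by exact_mod_cast hy0)
  have hw : (m + n) ^ 2 = 2 * m ^ 2 + 1 := by nlinarith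
  have hmn : n * m = 6 * (c : ℤ) ^ 2 := by nlinarith
  have c1 : (m + n).natAbs ^ 2 = 2 * m.natAbs ^ 2 + 1 := by
    zify
    rw [sq_abs, sq_abs]; exact hw
  have c2 : n.natAbs * m.natAbs = 6 * c ^ 2 := by
    rw [← Int.natAbs_mul, hmn]
    zify
    rw [abs_of_nonneg (by positivity)]
  have hn := core c1 c2 (Nat.Coprime.symm hgc) (fun h3 => by
    apply emod_natAbs_sq
    have h5 : (3 : ℤ) ∣ n := by
      have := Int.natCast_dvd_natCast.2 h3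
      rwa [Int.natCast_natAbs, dvd_abs] at this
    have : (m + n) ^ 2 - m ^ 2 = n * (n + 2 * m) := by ring
    rw [this]
    exact h5.mul_right _)
  rw [hn] at c2
  have : c ^ 2 = 0 := by omega
  have := pow_eq_zero_iff (n := 2) (by norm_num) |>.1 this
  subst this
  simp at h1

end Pool.Agent.H22.SO
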