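import Mathlib

/-! `x ^ 4 + 1 = 2 * y ^ 2` has only the solution `x = 1` in natural numbers
(descent for `a ^ 4 = b ^ 4 + c ^ 2`). -/

namespace Pool.Agent.H22.SO

namespace QuarticAux

/-- a factor of a square, coprime to the other factor and positive, is a square -/
theorem sq_of_mul {a b c : ℤ} (hab : IsCoprime a b) (ha : 0 < a) (h : a * b = c ^ 2) :
    ∃ r : ℤ, a = r ^ 2 := by
  obtain ⟨r, hr | hr⟩ := Int.sq_of_isCoprime hab h
  · exact ⟨r, hr⟩
  · exfalso
    nlinarith [sq_nonneg r]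

/-- second step of the descent -/
theorem step {a b m n : ℤ} (hb : b ≠ 0) (hm : 0 < m) (hn : 0 < n) (hmn : IsCoprime m n)
    (hm2 : m % 2 = 1) (hn2 : n % 2 = 0) (h1 : b ^ 2 = 2 * m * n) (h2 : a ^ 2 = m ^ 2 + n ^ 2) :
    ∃ g h r : ℤ, g ^ 4 = h ^ 4 + r ^ 2 ∧ h ≠ 0 ∧ r ≠ 0 ∧ IsCoprime g h ∧ g.natAbs < a.natAbs := by
  obtain ⟨n', rfl⟩ : ∃ n', n = 2 * n' := ⟨n / 2, by omega⟩
  have hbe : 2 ∣ b := by
    have : (2 : ℤ) ∣ b ^ 2 := ⟨m * (2 * n'), by rw [h1]; ring⟩
    exact Int.prime_two.dvd_of_dvd_pow this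
  obtain ⟨b', rfl⟩ := hbe
  have hn' : 0 < n' := by omega
  have h3 : m * n' = b' ^ 2 := by nlinarith
  have hmn' : IsCoprime m n' := IsCoprime.of_mul_right_right hmn
  obtain ⟨r, hr⟩ := sq_of_mul hmn' hm h3
  obtain ⟨s, hs⟩ := sq_of_mul hmn'.symm hn' (by rw [mul_comm]; exact h3)
  subst hr hs
  have hr0 : r ≠ 0 := by rintro rfl; simp at hm
  have hs0 : s ≠ 0 := by rintro rfl; simp at hn'
  have ha0 : a ≠ 0 := by
    rintro rfl
    nlinarith [pow_pos hm 2, pow_pos hn 2]
  have hpt : PythagoreanTriple (r ^ 2) (2 * s ^ 2) |a| := by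
    unfold PythagoreanTriple
    have := sq_abs a
    nlinarith
  obtain ⟨u, v, hu, hv, huv, hgcd, -, hu0⟩ :=
    hpt.coprime_classification' (Int.isCoprime_iff_gcd_eq_one.mp hmn) hm2 (abs_pos.mpr ha0)
  have huv' : u * v = s ^ 2 := by nlinarith
  have hup : 0 < u := by
    rcases hu0.lt_or_eq with h | h
    · exact h
    · exfalso
      rw [← h] at huv'
      simp at huv'
      exact hs0 (by simpa using huv'.symm)
  have hvp : 0 < v := by
    have : 0 < u * v := by rw [huv']; positivity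
    exact (mul_pos_iff_of_pos_left hup).mp this
  have hco : IsCoprime u v := Int.isCoprime_iff_gcd_eq_one.mpr hgcd
  obtain ⟨g, hg⟩ := sq_of_mul hco hup huv'
  obtain ⟨h, hh⟩ := sq_of_mul hco.symm hvp (by rw [mul_comm]; exact huv')
  subst hg hh
  refine ⟨g, h, r, by nlinarith, by rintro rfl; simp at hvp, hr0,
    (IsCoprime.pow_iff two_pos two_pos).mp hco, ?_⟩
  have h1 : (g.natAbs : ℤ) < a.natAbs := by
    rw [Int.natCast_natAbs, Int.natCast_natAbs]
    have hg1 : 1 ≤ |g| := by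
      have : g ≠ 0 := by rintro rfl; simp at hup
      exact Int.one_le_abs this
    have hg2 : |g| ^ 2 = g ^ 2 := sq_abs g
    rw [huv]
    nlinarith [pow_pos hvp 2, pow_pos hup 2]
  exact_mod_cast h1

/-- `a ^ 4 = b ^ 4 + c ^ 2` has no coprime solution with `b, c ≠ 0` -/
theorem descent : ∀ (N : ℕ) (a b c : ℤ), a.natAbs < N → IsCoprime a b → b ≠ 0 → c ≠ 0 →
    a ^ 4 = b ^ 4 + c ^ 2 → False := by
  intro N
  induction N with
  | zero => intro a b c h; exact absurd h (Nat.not_lt_zero _)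
  | succ N ih =>
    intro a b c haN hab hb hc h
    have ha0 : a ≠ 0 := by
      rintro rfl
      have : 0 < b ^ 4 := by positivity
      nlinarith [sq_nonneg c]
    have hcop : IsCoprime (b ^ 2) c := by
      have h1 : c ^ 2 = a ^ 4 + b ^ 2 * (-b ^ 2) := by linarith [h]
      have h2 : IsCoprime (b ^ 2) (c ^ 2) := by
        rw [h1]
        exact (hab.symm.pow (m := 2) (n := 4)).add_mul_left_right _
      exact (IsCoprime.pow_right_iff two_pos).mp h2
    rcases Int.emod_two_eq_zero_or_one b with hbe | hbo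
    · -- `b` even, so `c` odd
      have hco : c % 2 = 1 := by
        rcases Int.emod_two_eq_zero_or_one c with h0 | h1
        · exfalso
          have hb2 : (2 : ℤ) ∣ b ^ 2 := (Int.dvd_of_emod_eq_zero hbe).trans (dvd_pow_self b two_ne_zero)
          have hc2 : (2 : ℤ) ∣ c := Int.dvd_of_emod_eq_zero h0
          have := hcop.isUnit_of_dvd' hb2 hc2
          exact Int.prime_two.not_isUnit this
        · exact h1
      have hpt : PythagoreanTriple c (b ^ 2) (a ^ 2) := by
        unfold PythagoreanTriple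
        nlinarith
      obtain ⟨m, n, h1, h2, h3, hgcd, hpar, hm0⟩ :=
        hpt.coprime_classification' (Int.isCoprime_iff_gcd_eq_one.mp hcop.symm) hco (by positivity)
      have hb2 : 0 < b ^ 2 := by positivity
      have hmp : 0 < m := by
        rcases hm0.lt_or_eq with h | h
        · exact h
        · exfalso
          rw [← h] at h2
          simp at h2
          exact hb h2
      have hnp : 0 < n := by
        have : 0 < m * n := by nlinarith
        exact (mul_pos_iff_of_pos_left hmp).mp this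
      have hcp : IsCoprime m n := Int.isCoprime_iff_gcd_eq_one.mpr hgcd
      obtain ⟨g, h', r, hg, hh', hr, hcgh, hlt⟩ : ∃ g h r : ℤ, g ^ 4 = h ^ 4 + r ^ 2 ∧ h ≠ 0 ∧
          r ≠ 0 ∧ IsCoprime g h ∧ g.natAbs < a.natAbs := by
        rcases hpar with ⟨hme, hno⟩ | ⟨hmo, hne⟩
        · exact step hb hnp hmp hcp.symm hno hme (by rw [h2]; ring) (by rw [h3]; ring)
        · exact step hb hmp hnp hcp hmo hne h2 h3
      exact ih g h' r (by omega) hcgh hh' hr hg
    · have hb2 : b ^ 2 % 2 = 1 := by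
        rw [pow_two, Int.mul_emod, hbo]; rfl
      have hpt : PythagoreanTriple (b ^ 2) c (a ^ 2) := by
        unfold PythagoreanTriple
        nlinarith
      obtain ⟨m, n, h1, h2, h3, hgcd, -, hm0⟩ :=
        hpt.coprime_classification' (Int.isCoprime_iff_gcd_eq_one.mp hcop) hb2 (by positivity)
      have hcp : IsCoprime m n := Int.isCoprime_iff_gcd_eq_one.mpr hgcd
      have hn0 : n ≠ 0 := by rintro rfl; simp at h2; exact hc h2
      have hlt : m.natAbs < a.natAbs := by
        rw [Int.natAbs_lt_iff_sq_lt, h3]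
        have : 0 < n ^ 2 := by positivity
        linarith
      refine ih m n (a * b) (by omega) hcp hn0 (mul_ne_zero ha0 hb) ?_
      have : (a * b) ^ 2 = (m ^ 2 + n ^ 2) * (m ^ 2 - n ^ 2) := by rw [mul_pow, h3, h1]
      rw [this]; ring

end QuarticAux

/-- `x ^ 4 + 1 = 2 * y ^ 2` only for `x = 1` -/
theorem quartic_one {x y : ℕ} (h : x ^ 4 + 1 = 2 * y ^ 2) : x = 1 := by
  by_contra hx
  have hx0 : x ≠ 0 := by
    rintro rfl
    simp at h
    omega
  have hxodd : x % 2 = 1 := by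
    rcases Nat.mod_two_eq_zero_or_one x with h0 | h0
    · exfalso
      have : x ^ 4 % 2 = 0 := by rw [Nat.pow_mod, h0]
      omega
    · exact h0
  have hx4 : x ^ 4 % 2 = 1 := by rw [Nat.pow_mod, hxodd]
  obtain ⟨c, hc⟩ : ∃ c, x ^ 4 = 2 * c + 1 := ⟨x ^ 4 / 2, by omega⟩
  have hc0 : c ≠ 0 := by
    rintro rfl
    have : x ^ 4 = 1 := by omega
    exact hx (by simpa using this)
  have hy : y ^ 2 = c + 1 := by omega
  have hkey : (y : ℤ) ^ 4 = (x : ℤ) ^ 4 + (c : ℤ) ^ 2 := by
    have h1 : (y : ℤ) ^ 2 = c + 1 := by exact_mod_cast hy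
    have h2 : (x : ℤ) ^ 4 = 2 * c + 1 := by exact_mod_cast hc
    have h3 : (y : ℤ) ^ 4 = ((y : ℤ) ^ 2) ^ 2 := by ring
    rw [h3, h1, h2]; ring
  have hcop : IsCoprime (y : ℤ) (x : ℤ) := by
    have h1 : (x : ℤ) ^ 4 + 1 = 2 * (y : ℤ) ^ 2 := by exact_mod_cast h
    exact ⟨2 * y, -x ^ 3, by linear_combination -h1⟩
  exact QuarticAux.descent _ y x c (Nat.lt_succ_self _) hcop (by exact_mod_cast hx0)
    (by exact_mod_cast hc0) hkey

end Pool.Agent.H22.SO
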