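import Pool.Agent.H22.SO.Basic
import Pool.Agent.H22.SO.QuarticOne
import Pool.Agent.H22.SO.CaseA
import Pool.Agent.H22.SO.CaseB

/-!
# A prime power `q` with `q^2 + 1 = 2 y^2` is a prime
-/

namespace Pool.Agent.H22.SO

/-- the quotient `Q = (X^l+1)/(X+1)` is `l` modulo `X+1` -/
theorem quot_mod {X l Q : ℕ} (hl : Odd l) (h : X ^ l + 1 = (X + 1) * Q) :
    ((X : ℤ) + 1) ∣ (Q : ℤ) - l := by
  have h1 : (Q : ℤ) = ∑ i ∈ Finset.range l, (-(X : ℤ)) ^ i := by
    have h2 := mul_geom_sum (-(X : ℤ)) l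
    have h3 : (-(X : ℤ)) ^ l = - (X : ℤ) ^ l := hl.neg_pow _
    rw [h3] at h2
    have h4 : (X : ℤ) ^ l + 1 = ((X : ℤ) + 1) * Q := by exact_mod_cast h
    have h5 : ((X : ℤ) + 1) ≠ 0 := by positivity
    apply mul_left_cancel₀ h5
    linarith
  have h6 : (Q : ℤ) - l = ∑ i ∈ Finset.range l, ((-(X : ℤ)) ^ i - 1) := by
    rw [Finset.sum_sub_distrib, ← h1]
    simp
  rw [h6]
  apply Finset.dvd_sum
  intro i _
  have h7 : (-(X : ℤ) - 1) ∣ (-(X : ℤ)) ^ i - 1 := by
    simpa using sub_dvd_pow_sub_pow (-(X : ℤ)) 1 i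
  have h8 : ((X : ℤ) + 1) ∣ (-(X : ℤ) - 1) := ⟨-1, by ring⟩
  exact h8.trans h7

theorem nsw_prime_power {p k y : ℕ} (hp : p.Prime) (hk : 1 ≤ k)
    (h : (p ^ k) ^ 2 + 1 = 2 * y ^ 2) : k = 1 := by
  by_contra hk1
  -- even exponents
  rcases Nat.even_or_odd k with he | ho
  · obtain ⟨m, hm⟩ := he
    have h1 : (p ^ m) ^ 4 + 1 = 2 * y ^ 2 := by
      rw [← h, hm, ← pow_mul, ← pow_mul]; congr 2; ring
    have h2 := quartic_one h1
    have h3 : m ≠ 0 := by omega
    have h4 : p = 1 := by
      rcases Nat.pow_eq_one.1 h2 with h | h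
      · exact h
      · exact absurd h h3
    exact hp.one_lt.ne' h4
  -- odd exponents
  · have hpo : Odd p := by
      by_contra hpe
      rw [Nat.not_odd_iff_even] at hpe
      have h1 : Even ((p ^ k) ^ 2) := (hpe.pow_of_ne_zero (by omega)).pow_of_ne_zero (by norm_num)
      obtain ⟨c, hc⟩ := h1
      omega
    set l := k.minFac with hl
    have hlp : l.Prime := Nat.minFac_prime hk1
    have hlk : l ∣ k := Nat.minFac_dvd k
    have hlo : Odd l := Odd.of_dvd_nat ho hlk
    have hl2 : l ≠ 2 := by rintro h2; rw [h2] at hlo; exact absurd hlo (by decide)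
    have hl3 : 3 ≤ l := by have := hlp.two_le; omega
    obtain ⟨j, hj⟩ := hlk
    have hj1 : 1 ≤ j := Nat.pos_of_ne_zero (by rintro rfl; omega)
    set z := p ^ j with hz
    have hzo : Odd z := hpo.pow
    have hX : (p ^ k) ^ 2 = (z ^ 2) ^ l := by
      rw [hz, hj, ← pow_mul, ← pow_mul, ← pow_mul]; congr 1; ring
    have hdvd : z ^ 2 + 1 ∣ (z ^ 2) ^ l + 1 := by
      simpa using Odd.nat_add_dvd_pow_add_pow (z ^ 2) 1 hlo
    obtain ⟨Q, hQ⟩ := hdvd
    have hmod := quot_mod hlo hQ
    have hX8 : ∃ t, z ^ 2 + 1 = 2 * (2 * t + 1) := by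
      obtain ⟨t, ht⟩ := hzo
      exact ⟨t * t + t, by rw [ht]; ring⟩
    obtain ⟨t, ht⟩ := hX8
    have hy : (2 * t + 1) * Q = y ^ 2 := by
      have : 2 * ((2 * t + 1) * Q) = 2 * y ^ 2 := by
        rw [← h, hX, hQ, ht]; ring
      omega
    have hysq : IsSquare ((2 * t + 1) * Q) := ⟨y, by rw [hy]; ring⟩
    have key1 : ∀ r : ℕ, r.Prime → r ∣ z ^ 2 + 1 → r ∣ Q → r = l := by
      intro r hr h1 h2
      have h3 : (r : ℤ) ∣ (Q : ℤ) - l := by
        refine dvd_trans ?_ hmod
        exact_mod_cast h1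
      have h4 : (r : ℤ) ∣ (l : ℤ) := by
        have h5 : (r : ℤ) ∣ (Q : ℤ) := by exact_mod_cast h2
        have := dvd_sub h5 h3
        simpa using this
      have h5 : r ∣ l := by exact_mod_cast h4
      exact (Nat.prime_dvd_prime_iff_eq hr hlp).1 h5
    by_cases hlD : l ∣ z ^ 2 + 1
    · -- case B
      have hlQ : l ∣ Q := by
        have h3 : (l : ℤ) ∣ (Q : ℤ) - l := by
          refine dvd_trans ?_ hmod
          exact_mod_cast hlD
        have h4 : (l : ℤ) ∣ (Q : ℤ) := by
          have := dvd_add h3 (dvd_refl (l : ℤ))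
          simpa using this
        exact_mod_cast h4
      obtain ⟨Q', hQ'⟩ := hlQ
      -- l does not divide Q'
      have hnd : ¬ l ∣ Q' := by
        intro hc
        haveI : Fact l.Prime := ⟨hlp⟩
        have hlz : ¬ l ∣ z ^ 2 := by
          intro hc2
          have := (Nat.dvd_add_right hc2).1 hlD
          exact hlp.one_lt.ne' (Nat.dvd_one.1 this)
        have h5 := padicValNat.pow_add_pow hlo hlD hlz hlo
        rw [one_pow, hQ, padicValNat.mul (by positivity) (by
          rintro rfl; simp at hQ), padicValNat.self hlp.one_lt] at h5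
        have h6 : padicValNat l Q = 1 := by omega
        have h7 : l ^ 2 ∣ Q := by
          rw [hQ', pow_two]
          exact mul_dvd_mul_left l hc
        have hQ0 : Q ≠ 0 := by rintro rfl; simp at hQ
        have h8 := (padicValNat_dvd_iff_le hQ0).1 h7
        omega
      have hlD2 : l ∣ 2 * t + 1 := by
        rw [ht] at hlD
        rcases (Nat.Prime.dvd_mul hlp).1 hlD with h1 | h1
        · exact absurd ((Nat.prime_dvd_prime_iff_eq hlp Nat.prime_two).1 h1) hl2
        · exact h1
      obtain ⟨a, E, hE, hDE⟩ := Nat.exists_eq_pow_mul_and_not_dvd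
        (show 2 * t + 1 ≠ 0 by omega) l hlp.ne_one
      have h9 : IsSquare ((E * Q') * l ^ (a + 1)) := by
        have : (E * Q') * l ^ (a + 1) = (2 * t + 1) * Q := by
          rw [hDE, hQ']; ring
        rw [this]; exact hysq
      have h10 : Nat.Coprime (E * Q') (l ^ (a + 1)) := by
        apply Nat.Coprime.pow_right
        rw [Nat.coprime_comm]
        apply (Nat.Prime.coprime_iff_not_dvd hlp).2
        intro hc
        rcases (Nat.Prime.dvd_mul hlp).1 hc with h1 | h1
        · exact hE h1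
        · exact hnd h1
      have h11 := sq_left_of_coprime h10 h9
      have h12 : Nat.Coprime Q' E := by
        by_contra hcon
        obtain ⟨r, hr, hr1, hr2⟩ := Nat.Prime.not_coprime_iff_dvd.1 hcon
        have h13 : r ∣ z ^ 2 + 1 := by
          rw [ht, hDE]; exact ((hr2.mul_left _).mul_left _)
        have h14 : r ∣ Q := by rw [hQ']; exact hr1.mul_left _
        have h15 := key1 r hr h13 h14
        rw [h15] at hr1
        exact hnd hr1
      rw [mul_comm] at h11
      obtain ⟨v, hv⟩ := sq_left_of_coprime h12 h11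
      apply caseB (v := v) hzo hlp hl2 hlD
      rw [pow_mul, hQ, hQ', hv]; ring
    · -- case A
      have h12 : Nat.Coprime Q (2 * t + 1) := by
        by_contra hcon
        obtain ⟨r, hr, hr1, hr2⟩ := Nat.Prime.not_coprime_iff_dvd.1 hcon
        have h13 : r ∣ z ^ 2 + 1 := by
          rw [ht]; exact hr2.mul_left _
        have h15 := key1 r hr h13 hr1
        rw [h15] at h13
        exact hlD h13
      rw [mul_comm] at hysq
      obtain ⟨v, hv⟩ := sq_left_of_coprime h12 hysq
      apply caseA (v := v) (l := l) hp hj1 (by omega)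
      rw [← hz, pow_mul, hQ, hv]; ring

end Pool.Agent.H22.SO
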