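import Pool.Agent.H22.SO.Basic

/-!
# `u^2 = 72 a^4 + 1` and the equations of `PSL_4(q)`, `PSU_4(q)`
-/

namespace Pool.Agent.H22.SO

theorem pow4_mod3 (b : ℕ) : b ^ 4 % 3 = 0 ∨ b ^ 4 % 3 = 1 := by
  have : b % 3 = 0 ∨ b % 3 = 1 ∨ b % 3 = 2 := by omega
  rcases this with h | h | h <;> simp [Nat.pow_mod, h]

theorem sq_mod3 (b : ℕ) : b ^ 2 % 3 = 0 ∨ b ^ 2 % 3 = 1 := by
  have : b % 3 = 0 ∨ b % 3 = 1 ∨ b % 3 = 2 := by omega
  rcases this with h | h | h <;> simp [Nat.pow_mod, h]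

theorem pow_of_coprime_mul {a b c k : ℕ} (hab : Nat.Coprime a b) (h : a * b = c ^ k) :
    ∃ d, a = d ^ k :=
  exists_eq_pow_of_mul_eq_pow (Nat.isUnit_iff.2 hab) h

/-- `b^4 = 18 c^4 + 1` only for `c = 0` -/
theorem aux1 {b c : ℕ} (h : b ^ 4 = 18 * c ^ 4 + 1) : c = 0 := by
  have hbo : Odd b := by
    by_contra hb
    rw [Nat.not_odd_iff_even] at hb
    obtain ⟨d, hd⟩ := hb.pow_of_ne_zero (n := 4) (by norm_num)
    omega
  obtain ⟨t, ht⟩ := hbo
  -- e = (b^2+1)/2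
  obtain ⟨r, hr⟩ : ∃ r, t * t + t = 2 * r := (Nat.even_mul_succ_self t).two_dvd.imp (by
    intro r hr; rw [← hr]; ring)
  have hb2 : b ^ 2 = 8 * r + 1 := by
    rw [ht]; nlinarith
  have hb4 : b ^ 4 = (8 * r + 1) ^ 2 := by rw [← hb2]; ring
  have h1 : 2 * ((4 * r + 1) * (4 * r)) = 9 * c ^ 4 := by nlinarith
  have hce : 2 ∣ c := by
    have h2 : 2 ∣ 9 * c ^ 4 := ⟨_, h1.symm⟩
    have h3 : 2 ∣ c ^ 4 := by
      rcases (Nat.Prime.dvd_mul Nat.prime_two).1 h2 with h | h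
      · omega
      · exact h
    exact Nat.prime_two.dvd_of_dvd_pow h3
  obtain ⟨f, rfl⟩ := hce
  have h2 : (4 * r + 1) * r = 18 * f ^ 4 := by nlinarith
  -- 4 r + 1 is coprime to 18
  have h3 : (4 * r + 1) % 3 ≠ 0 := by
    have := sq_mod3 b
    omega
  have hc18 : Nat.Coprime (4 * r + 1) 18 := by
    have hc2 : Nat.Coprime (4 * r + 1) 2 := by
      rw [Nat.coprime_comm]
      exact (Nat.coprime_two_left).2 ⟨2 * r, by ring⟩
    have hc3 : Nat.Coprime (4 * r + 1) 3 := by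
      rw [Nat.coprime_comm]
      exact (Nat.Prime.coprime_iff_not_dvd Nat.prime_three).2 (fun hc => h3 (Nat.mod_eq_zero_of_dvd hc))
    have := hc2.mul_right (hc3.mul_right hc3)
    simpa using this
  have h4 : 18 ∣ r := by
    have h5 : 18 ∣ (4 * r + 1) * r := ⟨_, h2⟩
    exact hc18.symm.dvd_of_dvd_mul_left h5
  obtain ⟨s, rfl⟩ := h4
  have h5 : s * (4 * (18 * s) + 1) = f ^ 4 := by nlinarith
  have hcop : Nat.Coprime s (4 * (18 * s) + 1) := by
    have : 4 * (18 * s) + 1 = 1 + s * 72 := by ring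
    rw [this]
    simp
  obtain ⟨g, hg⟩ := pow_of_coprime_mul hcop h5
  -- b^2 = 144 s + 1 = (12 g^2)^2 + 1
  have h6 : b ^ 2 = (12 * g ^ 2) ^ 2 + 1 := by rw [hb2, hg]; ring
  have h7 : 12 * g ^ 2 = 0 := by
    by_contra h8
    have h9 : 12 * g ^ 2 < b := by
      by_contra hc
      have : b ≤ 12 * g ^ 2 := by omega
      have := Nat.pow_le_pow_left this 2
      omega
    have h10 : (12 * g ^ 2 + 1) ^ 2 ≤ b ^ 2 := Nat.pow_le_pow_left h9 2
    have h11 : (12 * g ^ 2 + 1) ^ 2 = (12 * g ^ 2) ^ 2 + 2 * (12 * g ^ 2) + 1 := by ring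
    omega
  have hg0 : g = 0 := by
    rcases Nat.mul_eq_zero.1 h7 with h | h
    · omega
    · exact pow_eq_zero_iff (by norm_num) |>.1 h
  have hs0 : s = 0 := by rw [hg, hg0]; norm_num
  rw [hs0] at h5
  have : f ^ 4 = 0 := by omega
  have := pow_eq_zero_iff (n := 4) (by norm_num) |>.1 this
  omega

/-- `u^2 = 72 a^4 + 1` only for `a = 0` -/
theorem pell72 {u a : ℕ} (h : u ^ 2 = 72 * a ^ 4 + 1) : a = 0 := by
  have huo : Odd u := by
    by_contra hb
    rw [Nat.not_odd_iff_even] at hb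
    obtain ⟨d, hd⟩ := hb.pow_of_ne_zero (n := 2) (by norm_num)
    omega
  obtain ⟨s, hs⟩ := huo
  have h1 : s * (s + 1) = 18 * a ^ 4 := by
    rw [hs] at h; nlinarith
  have hcop : Nat.Coprime s (s + 1) := by simp
  have h9 : 9 ∣ s ∨ 9 ∣ s + 1 := by
    have h2 : 3 ∣ s * (s + 1) := ⟨6 * a ^ 4, by rw [h1]; ring⟩
    have h3 : 9 ∣ s * (s + 1) := ⟨2 * a ^ 4, by rw [h1]; ring⟩
    have h39 : (9 : ℕ) = 3 ^ 2 := by norm_num
    rcases (Nat.Prime.dvd_mul Nat.prime_three).1 h2 with h4 | h4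
    · left
      have h5 : Nat.Coprime 9 (s + 1) := by
        rw [h39]
        apply Nat.Coprime.pow_left
        apply (Nat.Prime.coprime_iff_not_dvd Nat.prime_three).2
        intro hc; omega
      exact h5.dvd_of_dvd_mul_right h3
    · right
      have h5 : Nat.Coprime 9 s := by
        rw [h39]
        apply Nat.Coprime.pow_left
        apply (Nat.Prime.coprime_iff_not_dvd Nat.prime_three).2
        intro hc; omega
      exact h5.dvd_of_dvd_mul_left h3
  have h2 : 2 ∣ s ∨ 2 ∣ s + 1 := by omega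
  rcases h9 with h9 | h9
  · obtain ⟨c', hc'⟩ := h9
    rcases h2 with h2 | h2
    · -- s = 18 c, s + 1 = b^4
      have h18 : 18 ∣ s := by omega
      obtain ⟨c, hc⟩ := h18
      have h3 : c * (s + 1) = a ^ 4 := by
        have : 18 * (c * (s + 1)) = 18 * a ^ 4 := by rw [← h1, hc]; ring
        omega
      have hcc : Nat.Coprime c (s + 1) := Nat.Coprime.coprime_dvd_left ⟨18, by rw [hc]; ring⟩ hcop
      obtain ⟨d, hd⟩ := pow_of_coprime_mul hcc h3
      obtain ⟨b, hb⟩ := pow_of_coprime_mul hcc.symm (by rw [mul_comm]; exact h3)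
      have h4 : b ^ 4 = 18 * d ^ 4 + 1 := by rw [← hb, ← hd, hc]
      have hd0 := aux1 h4
      rw [hd0] at hd
      have hc0 : c = 0 := by rw [hd]; norm_num
      rw [hc0] at h3
      have : a ^ 4 = 0 := by omega
      exact pow_eq_zero_iff (n := 4) (by norm_num) |>.1 this
    · -- s = 9 c', s + 1 = 2 b'
      exfalso
      obtain ⟨b', hb'⟩ := h2
      have h3 : b' * c' = a ^ 4 := by
        have : 18 * (b' * c') = 18 * a ^ 4 := by
          rw [← h1, hb', hc']; ring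
        omega
      have hcc : Nat.Coprime b' c' := by
        apply Nat.Coprime.coprime_dvd_left (show b' ∣ s + 1 from ⟨2, by rw [hb']; ring⟩)
        exact Nat.Coprime.coprime_dvd_right (show c' ∣ s from ⟨9, by rw [hc']; ring⟩) hcop.symm
      obtain ⟨b, hb⟩ := pow_of_coprime_mul hcc h3
      have := pow4_mod3 b
      omega
  · obtain ⟨c', hc'⟩ := h9
    rcases h2 with h2 | h2
    · -- s = 2 b', s + 1 = 9 c'
      exfalso
      obtain ⟨b', hb'⟩ := h2
      have h3 : b' * c' = a ^ 4 := by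
        have : 18 * (b' * c') = 18 * a ^ 4 := by
          rw [← h1, hc', hb']; ring
        omega
      have hcc : Nat.Coprime b' c' := by
        apply Nat.Coprime.coprime_dvd_left (show b' ∣ s from ⟨2, by rw [hb']; ring⟩)
        exact Nat.Coprime.coprime_dvd_right (show c' ∣ s + 1 from ⟨9, by rw [hc']; ring⟩) hcop
      obtain ⟨b, hb⟩ := pow_of_coprime_mul hcc h3
      obtain ⟨c, hc⟩ := pow_of_coprime_mul hcc.symm (by rw [mul_comm]; exact h3)
      have h4 : 9 * c ^ 4 = 2 * b ^ 4 + 1 := by rw [← hb, ← hc]; omega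
      have hco : Odd c := by
        by_contra hb
        rw [Nat.not_odd_iff_even] at hb
        obtain ⟨d, hd⟩ := hb.pow_of_ne_zero (n := 4) (by norm_num)
        omega
      obtain ⟨t, ht⟩ := hco
      obtain ⟨r, hr⟩ : ∃ r, t * t + t = 2 * r := (Nat.even_mul_succ_self t).two_dvd.imp (by
        intro r hr; rw [← hr]; ring)
      have hc2 : c ^ 2 = 8 * r + 1 := by
        rw [ht]; nlinarith
      have hc4 : c ^ 4 = (8 * r + 1) ^ 2 := by rw [← hc2]; ring
      have h5 : b ^ 4 = 4 * ((12 * r + 1) * (6 * r + 1)) := by nlinarith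
      have hbe : 2 ∣ b := by
        apply Nat.prime_two.dvd_of_dvd_pow (n := 4)
        rw [h5]
        exact Dvd.dvd.mul_right (by norm_num) _
      obtain ⟨f, rfl⟩ := hbe
      have h6 : 4 * f ^ 4 = (12 * r + 1) * (6 * r + 1) := by nlinarith
      have h7 : Odd ((12 * r + 1) * (6 * r + 1)) := by
        apply Odd.mul
        · exact ⟨6 * r, by ring⟩
        · exact ⟨3 * r, by ring⟩
      rw [← h6] at h7
      obtain ⟨d, hd⟩ := h7
      omega
    · -- s + 1 = 18 c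
      exfalso
      have h18 : 18 ∣ s + 1 := by omega
      obtain ⟨c, hc⟩ := h18
      have h3 : s * c = a ^ 4 := by
        have : 18 * (s * c) = 18 * a ^ 4 := by rw [← h1, hc]; ring
        omega
      have hcc : Nat.Coprime s c := Nat.Coprime.coprime_dvd_right ⟨18, by rw [hc]; ring⟩ hcop
      obtain ⟨d, hd⟩ := pow_of_coprime_mul hcc h3
      have := pow4_mod3 d
      omega

/-- the common core of the two rank 3 cases -/
theorem core {w m n c : ℕ} (h1 : w ^ 2 = 2 * n ^ 2 + 1) (h2 : m * n = 6 * c ^ 2)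
    (hc : Nat.Coprime m n) (h3 : 3 ∣ m → w ^ 2 % 3 = n ^ 2 % 3) : n = 0 := by
  have hwo : Odd w := by
    by_contra hb
    rw [Nat.not_odd_iff_even] at hb
    obtain ⟨d, hd⟩ := hb.pow_of_ne_zero (n := 2) (by norm_num)
    omega
  obtain ⟨t, ht⟩ := hwo
  have hn2 : n ^ 2 = 2 * (t * t + t) := by
    rw [ht] at h1; nlinarith
  have hne : 2 ∣ n := Nat.prime_two.dvd_of_dvd_pow (n := 2) ⟨_, hn2⟩
  obtain ⟨k, rfl⟩ := hne
  have h4 : m * k = 3 * c ^ 2 := by nlinarith
  have hck : Nat.Coprime m k := Nat.Coprime.coprime_dvd_right ⟨2, by ring⟩ hc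
  have h5 : 3 ∣ m ∨ 3 ∣ k := (Nat.Prime.dvd_mul Nat.prime_three).1 ⟨_, h4⟩
  rcases h5 with h5 | h5
  · exfalso
    have h6 := h3 h5
    obtain ⟨m', rfl⟩ := h5
    have h7 : k * m' = c ^ 2 := by nlinarith
    have hck' : Nat.Coprime k m' := (Nat.Coprime.coprime_dvd_left ⟨3, by ring⟩ hck).symm
    obtain ⟨a, ha⟩ := pow_of_coprime_mul hck' h7
    -- w^2 = 8 a^4 + 1, n^2 = 4 a^4
    have h8 : (2 * k) ^ 2 = 4 * a ^ 4 := by rw [ha]; ring
    have := pow4_mod3 a
    omega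
  · obtain ⟨k', rfl⟩ := h5
    have h7 : k' * m = c ^ 2 := by nlinarith
    have hck' : Nat.Coprime k' m := (Nat.Coprime.coprime_dvd_right ⟨3, by ring⟩ hck).symm
    obtain ⟨a, ha⟩ := pow_of_coprime_mul hck' h7
    have h8 : w ^ 2 = 72 * a ^ 4 + 1 := by rw [h1, ha]; ring
    have := pell72 h8
    rw [ha, this]
    norm_num

end Pool.Agent.H22.SO
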