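import Pool.Agent.H22.SO.Basic

/-!
# Square orders: the factor `X^4 - X^2 + 1`, `X = q^(2^i)`
-/

namespace Pool.Agent.H22.SO

/-- `Φ₁₂(X)` in the form `X^2 (X^2 - 1) + 1`, `X = q^(2^i)` -/
def phi (q i : ℕ) : ℕ := (q ^ 2 ^ i) ^ 2 * ((q ^ 2 ^ i) ^ 2 - 1) + 1

theorem phi_mul {X : ℕ} (hX : 1 ≤ X) :
    (X ^ 2 * (X ^ 2 - 1) + 1) * (X ^ 2 + 1) = X ^ 6 + 1 := by
  obtain ⟨c, hc⟩ : ∃ c, X ^ 2 = c + 1 := ⟨X ^ 2 - 1, by have : 1 ≤ X ^ 2 := Nat.one_le_pow _ _ hX; omega⟩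
  have h6 : X ^ 6 = (X ^ 2) ^ 3 := by ring
  rw [h6, hc, Nat.add_sub_cancel]
  ring

theorem phi_dvd {q i : ℕ} (hq : 1 ≤ q) : phi q i ∣ q ^ (12 * 2 ^ i) - 1 := by
  set X := q ^ 2 ^ i with hX
  have hX1 : 1 ≤ X := Nat.one_le_pow _ _ hq
  have h1 : q ^ (12 * 2 ^ i) = (X ^ 6) ^ 2 := by
    rw [hX, ← pow_mul, ← pow_mul]; congr 1; ring
  have h2 : (X ^ 6) ^ 2 - 1 = (X ^ 6 + 1) * (X ^ 6 - 1) := by
    have h := Nat.sq_sub_sq (X ^ 6) 1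
    simpa using h
  rw [h1, h2, ← phi_mul hX1]
  exact (Dvd.intro _ rfl : phi q i ∣ _ * (X ^ 2 + 1)).mul_right _

theorem phi_odd {q i : ℕ} : Odd (phi q i) := by
  unfold phi
  apply Even.add_one
  rcases Nat.even_or_odd ((q ^ 2 ^ i) ^ 2) with h | h
  · exact h.mul_right _
  · obtain ⟨c, hc⟩ := h
    rw [hc, Nat.add_sub_cancel]
    exact (even_two_mul c).mul_left _

theorem phi_not_square {q i : ℕ} (hq : 2 ≤ q) : ¬ IsSquare (phi q i) := by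
  rintro ⟨y, hy⟩
  unfold phi at hy
  have hX : 2 ≤ q ^ 2 ^ i := by
    calc 2 ≤ q := hq
      _ = q ^ 1 := (pow_one q).symm
      _ ≤ q ^ 2 ^ i := Nat.pow_le_pow_right (by omega) Nat.one_le_two_pow
  obtain ⟨c, hc⟩ : ∃ c, (q ^ 2 ^ i) ^ 2 = c + 2 :=
    ⟨(q ^ 2 ^ i) ^ 2 - 2, by nlinarith [Nat.sub_add_cancel (show 2 ≤ (q ^ 2 ^ i) ^ 2 by nlinarith)]⟩
  rw [hc] at hy
  have h1 : c + 2 - 1 = c + 1 := by omega
  rw [h1] at hy
  have h2 : c + 1 < y := by nlinarith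
  nlinarith

theorem phi_coprime {q i d : ℕ} (hq : 1 ≤ q) (hd : ¬ 12 * 2 ^ i ∣ d) :
    Nat.Coprime (phi q i) (q ^ d - 1) := by
  by_contra hcon
  obtain ⟨r, hr, hr1, hr2⟩ := Nat.Prime.not_coprime_iff_dvd.1 hcon
  set X := q ^ 2 ^ i with hX
  have hX1 : 1 ≤ X := Nat.one_le_pow _ _ hq
  have hodd : r ≠ 2 := by
    rintro rfl
    have := phi_odd (q := q) (i := i)
    exact (Nat.not_even_iff_odd.2 this) (even_iff_two_dvd.2 hr1)
  have h3 : r ∣ q ^ (Nat.gcd (12 * 2 ^ i) d) - 1 := by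
    rw [← Nat.pow_sub_one_gcd_pow_sub_one]
    exact Nat.dvd_gcd (hr1.trans (phi_dvd hq)) hr2
  set g := Nat.gcd (12 * 2 ^ i) d with hg
  have hgm : g ∣ 12 * 2 ^ i := Nat.gcd_dvd_left _ _
  have hgne : g ≠ 12 * 2 ^ i := by
    intro h; apply hd; rw [← h]; exact Nat.gcd_dvd_right _ _
  obtain ⟨e, he⟩ := hgm
  have he1 : e ≠ 1 := by rintro rfl; apply hgne; omega
  have h23 : 2 ∣ e ∨ 3 ∣ e := by
    obtain ⟨s, hs, hs2⟩ := Nat.exists_prime_and_dvd he1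
    have h4 : s ∣ 12 * 2 ^ i := he ▸ hs2.mul_left _
    rcases (Nat.Prime.dvd_mul hs).1 h4 with h5 | h5
    · have h6 : s ≤ 12 := Nat.le_of_dvd (by norm_num) h5
      interval_cases s <;> first | omega | (exfalso; revert hs; decide) | skip
    · left
      have h6 := hs.dvd_of_dvd_pow h5
      have := (Nat.prime_dvd_prime_iff_eq hs Nat.prime_two).1 h6
      rwa [← this]
  have hp : r ∣ X ^ 2 * (X ^ 2 - 1) + 1 := hr1
  rcases h23 with h2 | h2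
  · obtain ⟨e', rfl⟩ := h2
    have h7 : g ∣ 6 * 2 ^ i := ⟨e', by nlinarith⟩
    have h8 : r ∣ q ^ (6 * 2 ^ i) - 1 := h3.trans (Nat.pow_sub_one_dvd_pow_sub_one q h7)
    have h9 : q ^ (6 * 2 ^ i) = X ^ 6 := by rw [hX, ← pow_mul]; congr 1; ring
    rw [h9] at h8
    have h10 : r ∣ X ^ 6 + 1 := by rw [← phi_mul hX1]; exact hp.mul_right _
    have h11 : r ∣ (X ^ 6 + 1) - (X ^ 6 - 1) := Nat.dvd_sub h10 h8
    have h12 : (X ^ 6 + 1) - (X ^ 6 - 1) = 2 := by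
      have : 1 ≤ X ^ 6 := Nat.one_le_pow _ _ hX1
      omega
    rw [h12] at h11
    exact hodd ((Nat.prime_dvd_prime_iff_eq hr Nat.prime_two).1 h11)
  · obtain ⟨e', rfl⟩ := h2
    have h7 : g ∣ 4 * 2 ^ i := ⟨e', by nlinarith⟩
    have h8 : r ∣ q ^ (4 * 2 ^ i) - 1 := h3.trans (Nat.pow_sub_one_dvd_pow_sub_one q h7)
    have h9 : q ^ (4 * 2 ^ i) = X ^ 4 := by rw [hX, ← pow_mul]; congr 1; ring
    rw [h9] at h8
    have h4 : 1 ≤ X ^ 4 := Nat.one_le_pow _ _ hX1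
    have hX2 : 1 ≤ X ^ 2 := Nat.one_le_pow _ _ hX1
    have z1 : (r : ℤ) ∣ (X : ℤ) ^ 4 - 1 := by
      have := Int.natCast_dvd_natCast.2 h8
      rwa [Nat.cast_sub h4, Nat.cast_pow, Nat.cast_one] at this
    have z2 : (r : ℤ) ∣ (X : ℤ) ^ 2 * ((X : ℤ) ^ 2 - 1) + 1 := by
      have := Int.natCast_dvd_natCast.2 hp
      rwa [Nat.cast_add, Nat.cast_mul, Nat.cast_sub hX2, Nat.cast_pow, Nat.cast_one] at this
    have z3 : (r : ℤ) ∣ 3 := by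
      have : (3 : ℤ) = ((X : ℤ) ^ 2 * ((X : ℤ) ^ 2 - 1) + 1) * ((X : ℤ) ^ 2 + 2)
          - ((X : ℤ) ^ 4 - 1) * ((X : ℤ) ^ 2 + 1) := by ring
      rw [this]
      exact dvd_sub (z2.mul_right _) (z1.mul_right _)
    have z4 : r ∣ 3 := by exact_mod_cast z3
    have z5 : r = 3 := (Nat.prime_dvd_prime_iff_eq hr Nat.prime_three).1 z4
    subst z5
    have z6 : ((X : ℤ) ^ 2 * ((X : ℤ) ^ 2 - 1) + 1) % 3 = 0 := Int.emod_eq_zero_of_dvd z2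
    have z7 : (X : ℤ) % 3 = 0 ∨ (X : ℤ) % 3 = 1 ∨ (X : ℤ) % 3 = 2 := by omega
    rcases z7 with z | z | z <;> simp [pow_two, Int.add_emod, Int.sub_emod, Int.mul_emod, z] at z6

theorem phi_coprime_add {q i d : ℕ} (hq : 1 ≤ q) (hd : ¬ 12 * 2 ^ i ∣ 2 * d) :
    Nat.Coprime (phi q i) (q ^ d + 1) := by
  have h1 := phi_coprime hq hd
  apply Nat.Coprime.coprime_dvd_right _ h1
  have : q ^ (2 * d) - 1 = (q ^ d + 1) * (q ^ d - 1) := by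
    have h := Nat.sq_sub_sq (q ^ d) 1
    rw [mul_comm 2 d, pow_mul]
    simpa using h
  rw [this]
  exact Dvd.intro _ rfl

theorem phi_coprime_pow {q i e : ℕ} (hq : 1 ≤ q) : Nat.Coprime (phi q i) (q ^ e) := by
  apply Nat.Coprime.pow_right
  apply Nat.Coprime.coprime_dvd_left (phi_dvd hq)
  have hpos : 1 ≤ q ^ (12 * 2 ^ i) := Nat.one_le_pow _ _ hq
  have : q ^ (12 * 2 ^ i) = q * q ^ (12 * 2 ^ i - 1) := by
    rw [← pow_succ']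
    congr 1
    have : 1 ≤ 2 ^ i := Nat.one_le_two_pow
    omega
  rw [Nat.coprime_iff_gcd_eq_one]
  by_contra hcon
  obtain ⟨r, hr, hr1, hr2⟩ := Nat.Prime.not_coprime_iff_dvd.1 hcon
  have h1 : r ∣ q ^ (12 * 2 ^ i) := this ▸ hr2.mul_right _
  have h2 : r ∣ 1 := by
    have := Nat.dvd_sub h1 hr1
    rwa [Nat.sub_sub_self hpos] at this
  exact hr.one_lt.ne' (Nat.dvd_one.1 h2)

/-- the second key step -/
theorem key12 {q i N g B : ℕ} (hq : 2 ≤ q) (hN : IsSquare N) (h : N * g = phi q i * B)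
    (hB : Nat.Coprime (phi q i) B) (hg : Nat.Coprime (phi q i) g) : False :=
  phi_not_square hq (square_of_mul hN h hB hg)

end Pool.Agent.H22.SO
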