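import Pool.Agent.H22.SO.Phi12
import Pool.Agent.H22.SO.Defs

/-!
# Square orders: the unbounded rank families, reduction to `q^(2^K) + 1 = 2 y^2`
-/

namespace Pool.Agent.H22.SO

theorem pow_sub_factor {q K : ℕ} :
    q ^ 2 ^ (K + 1) - 1 = (q ^ 2 ^ K + 1) * (q ^ 2 ^ K - 1) := by
  have : q ^ 2 ^ (K + 1) = (q ^ 2 ^ K) ^ 2 := by rw [← pow_mul, pow_succ]
  rw [this]
  have := Nat.sq_sub_sq (q ^ 2 ^ K) 1
  simpa using this

theorem not_dvd_of_lt {m i : ℕ} (hi : 0 < i) (h : i < 2 * m) (hne : i ≠ m) : ¬ m ∣ i := by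
  rintro ⟨c, rfl⟩
  have hm : 0 < m := Nat.pos_of_ne_zero (by rintro rfl; simp at hi)
  have h1 : c < 2 := by nlinarith
  have h2 : 0 < c := Nat.pos_of_ne_zero (by rintro rfl; simp at hi)
  have : c = 1 := by omega
  subst this
  simp at hne

theorem psl_key {N n q K : ℕ} (hq : 2 ≤ q) (hK : 1 ≤ K) (h1 : 2 ^ (K + 1) ≤ n)
    (h2 : n < 2 ^ (K + 2)) (h : IsPSLOrder N n q) (hN : IsSquare N) :
    Odd q ∧ ∃ y, q ^ 2 ^ K + 1 = 2 * y ^ 2 := by
  have hm : 2 ^ (K + 1) ∈ Finset.Icc 2 n := by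
    rw [Finset.mem_Icc]
    refine ⟨?_, h1⟩
    calc 2 = 2 ^ 1 := by norm_num
      _ ≤ 2 ^ (K + 1) := Nat.pow_le_pow_right (by norm_num) (by omega)
  have hprod : ∏ i ∈ Finset.Icc 2 n, (q ^ i - 1) = (q ^ 2 ^ (K + 1) - 1) *
      ∏ i ∈ (Finset.Icc 2 n).erase (2 ^ (K + 1)), (q ^ i - 1) :=
    (Finset.mul_prod_erase _ (fun i => q ^ i - 1) hm).symm
  rw [IsPSLOrder, hprod, pow_sub_factor] at h
  have h' : N * Nat.gcd n (q - 1) = (q ^ 2 ^ K + 1) * (q ^ (n * (n - 1) / 2) *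
      ((q ^ 2 ^ K - 1) * ∏ i ∈ (Finset.Icc 2 n).erase (2 ^ (K + 1)), (q ^ i - 1))) := by
    rw [h]; ring
  refine key hq hK hN h' ?_ ?_
  · intro A hA hA2
    refine (coprime_pow_self hA2).mul_right ((coprime_half (by omega) hA hA2).mul_right ?_)
    refine Nat.Coprime.prod_right fun i hi => ?_
    rw [Finset.mem_erase, Finset.mem_Icc] at hi
    refine coprime_aux (by omega) ?_ hA hA2
    apply not_dvd_of_lt (by omega) _ hi.1
    have : 2 ^ (K + 2) = 2 * 2 ^ (K + 1) := by ring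
    omega
  · intro A hA hA2
    apply Nat.Coprime.coprime_dvd_right (Nat.gcd_dvd_right n (q - 1))
    have := coprime_aux (d := 1) (by omega : 1 ≤ q) (fun hc => by
      have := Nat.le_of_dvd (by norm_num) hc
      have h3 : 2 ^ 1 ≤ 2 ^ (K + 1) := Nat.pow_le_pow_right (by norm_num) (by omega)
      omega) hA hA2
    simpa using this

theorem psu_key {N n q K : ℕ} (hq : 2 ≤ q) (hK : 1 ≤ K) (h1 : 2 ^ (K + 1) ≤ n)
    (h2 : n < 2 ^ (K + 2)) (h : IsPSUOrder N n q) (hN : IsSquare N) :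
    Odd q ∧ ∃ y, q ^ 2 ^ K + 1 = 2 * y ^ 2 := by
  have h4 : 4 ∣ 2 ^ (K + 1) := by
    have : 2 ^ 2 ∣ 2 ^ (K + 1) := pow_dvd_pow _ (by omega)
    simpa using this
  have hev : Even (2 ^ (K + 1)) := (even_iff_two_dvd.2 (dvd_trans (by norm_num) h4))
  have hm : 2 ^ (K + 1) ∈ Finset.Icc 2 n := by
    rw [Finset.mem_Icc]
    refine ⟨?_, h1⟩
    calc 2 = 2 ^ 1 := by norm_num
      _ ≤ 2 ^ (K + 1) := Nat.pow_le_pow_right (by norm_num) (by omega)
  have hprod : ∏ i ∈ Finset.Icc 2 n, (if Even i then q ^ i - 1 else q ^ i + 1) =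
      (q ^ 2 ^ (K + 1) - 1) *
      ∏ i ∈ (Finset.Icc 2 n).erase (2 ^ (K + 1)), (if Even i then q ^ i - 1 else q ^ i + 1) := by
    have := (Finset.mul_prod_erase _ (fun i => if Even i then q ^ i - 1 else q ^ i + 1) hm).symm
    simp only [if_pos hev] at this
    exact this
  rw [IsPSUOrder, hprod, pow_sub_factor] at h
  have h' : N * Nat.gcd n (q + 1) = (q ^ 2 ^ K + 1) * (q ^ (n * (n - 1) / 2) *
      ((q ^ 2 ^ K - 1) * ∏ i ∈ (Finset.Icc 2 n).erase (2 ^ (K + 1)),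
        (if Even i then q ^ i - 1 else q ^ i + 1))) := by
    rw [h]; ring
  refine key hq hK hN h' ?_ ?_
  · intro A hA hA2
    refine (coprime_pow_self hA2).mul_right ((coprime_half (by omega) hA hA2).mul_right ?_)
    refine Nat.Coprime.prod_right fun i hi => ?_
    rw [Finset.mem_erase, Finset.mem_Icc] at hi
    split_ifs with he
    · refine coprime_aux (by omega) ?_ hA hA2
      apply not_dvd_of_lt (by omega) _ hi.1
      have : 2 ^ (K + 2) = 2 * 2 ^ (K + 1) := by ring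
      omega
    · refine coprime_aux_add (by omega) ?_ hA hA2
      intro hc
      have h5 : 4 ∣ 2 * i := h4.trans hc
      apply he
      rw [even_iff_two_dvd]
      omega
  · intro A hA hA2
    apply Nat.Coprime.coprime_dvd_right (Nat.gcd_dvd_right n (q + 1))
    have := coprime_aux_add (d := 1) (by omega : 1 ≤ q) (fun hc => by
      have := h4.trans hc
      omega) hA hA2
    simpa using this

theorem psp_key {N n q K : ℕ} (hq : 2 ≤ q) (hK : 1 ≤ K) (h1 : 2 ^ K ≤ n)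
    (h2 : n < 2 ^ (K + 1)) (h : IsPSpOrder N n q) (hN : IsSquare N) :
    Odd q ∧ ∃ y, q ^ 2 ^ K + 1 = 2 * y ^ 2 := by
  have hm : 2 ^ K ∈ Finset.Icc 1 n := by
    rw [Finset.mem_Icc]
    exact ⟨Nat.one_le_two_pow, h1⟩
  have h2K : 2 * 2 ^ K = 2 ^ (K + 1) := by ring
  have hprod : ∏ i ∈ Finset.Icc 1 n, (q ^ (2 * i) - 1) = (q ^ 2 ^ (K + 1) - 1) *
      ∏ i ∈ (Finset.Icc 1 n).erase (2 ^ K), (q ^ (2 * i) - 1) := by
    rw [← h2K]
    exact (Finset.mul_prod_erase _ (fun i => q ^ (2 * i) - 1) hm).symm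
  rw [IsPSpOrder, hprod, pow_sub_factor] at h
  have h' : N * Nat.gcd 2 (q - 1) = (q ^ 2 ^ K + 1) * (q ^ (n ^ 2) *
      ((q ^ 2 ^ K - 1) * ∏ i ∈ (Finset.Icc 1 n).erase (2 ^ K), (q ^ (2 * i) - 1))) := by
    rw [h]; ring
  refine key hq hK hN h' ?_ ?_
  · intro A hA hA2
    refine (coprime_pow_self hA2).mul_right ((coprime_half (by omega) hA hA2).mul_right ?_)
    refine Nat.Coprime.prod_right fun i hi => ?_
    rw [Finset.mem_erase, Finset.mem_Icc] at hi
    refine coprime_aux (by omega) ?_ hA hA2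
    rw [← h2K]
    apply not_dvd_of_lt (by omega) _ _
    · omega
    · intro hc; apply hi.1; omega
  · intro A hA hA2
    apply Nat.Coprime.coprime_dvd_right (Nat.gcd_dvd_left 2 (q - 1))
    rw [Nat.coprime_comm]
    exact (Nat.coprime_two_left).2 hA

theorem coprime_four {A : ℕ} (hA : Odd A) : Nat.Coprime A 4 := by
  have : Nat.Coprime A (2 ^ 2) := Nat.Coprime.pow_right 2 (by
    rw [Nat.coprime_comm]; exact (Nat.coprime_two_left).2 hA)
  simpa using this

theorem pominus_key {N n q K : ℕ} (hq : 2 ≤ q) (hK : 1 ≤ K) (h1 : 2 ^ K ≤ n - 1)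
    (h2 : n - 1 < 2 ^ (K + 1)) (h : IsPOmegaMinusOrder N n q) (hN : IsSquare N) :
    Odd q ∧ ∃ y, q ^ 2 ^ K + 1 = 2 * y ^ 2 := by
  have hm : 2 ^ K ∈ Finset.Icc 1 (n - 1) := by
    rw [Finset.mem_Icc]
    exact ⟨Nat.one_le_two_pow, h1⟩
  have h2K : 2 * 2 ^ K = 2 ^ (K + 1) := by ring
  have hprod : ∏ i ∈ Finset.Icc 1 (n - 1), (q ^ (2 * i) - 1) = (q ^ 2 ^ (K + 1) - 1) *
      ∏ i ∈ (Finset.Icc 1 (n - 1)).erase (2 ^ K), (q ^ (2 * i) - 1) := by
    rw [← h2K]
    exact (Finset.mul_prod_erase _ (fun i => q ^ (2 * i) - 1) hm).symm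
  rw [IsPOmegaMinusOrder, hprod, pow_sub_factor] at h
  have h' : N * Nat.gcd 4 (q ^ n + 1) = (q ^ 2 ^ K + 1) * (q ^ (n * (n - 1)) * ((q ^ n + 1) *
      ((q ^ 2 ^ K - 1) * ∏ i ∈ (Finset.Icc 1 (n - 1)).erase (2 ^ K), (q ^ (2 * i) - 1)))) := by
    rw [h]; ring
  refine key hq hK hN h' ?_ ?_
  · intro A hA hA2
    refine (coprime_pow_self hA2).mul_right (Nat.Coprime.mul_right ?_
      ((coprime_half (by omega) hA hA2).mul_right ?_))
    · -- `q^n + 1`
      by_cases hn : n = 2 ^ (K + 1)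
      · -- `q^n = 1` modulo `A`
        have h3 : A ∣ q ^ n - 1 := by
          rw [hn, pow_sub_factor]; exact hA2.mul_right _
        have h4 : Nat.Coprime A 2 := by
          rw [Nat.coprime_comm]; exact (Nat.coprime_two_left).2 hA
        have h5 : q ^ n + 1 = (q ^ n - 1) + 2 := by
          have : 1 ≤ q ^ n := Nat.one_le_pow _ _ (by omega)
          omega
        rw [h5]
        obtain ⟨c, hc⟩ := h3
        rw [hc]
        rw [add_comm, Nat.coprime_add_mul_left_right]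
        exact h4
      · refine coprime_aux_add (by omega) ?_ hA hA2
        intro hc
        have h3 : 2 ^ K ∣ n := by
          have : 2 * 2 ^ K ∣ 2 * n := by rw [h2K]; exact hc
          exact (Nat.mul_dvd_mul_iff_left (by norm_num)).1 this
        obtain ⟨c, hc⟩ := h3
        have hc1 : 1 < c := by
          by_contra hcc
          have : c ≤ 1 := by omega
          have h5 : 2 ^ K * c ≤ 2 ^ K * 1 := Nat.mul_le_mul_left _ this
          have h6 : 1 ≤ 2 ^ K := Nat.one_le_two_pow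
          omega
        have hc2 : c < 3 := by
          by_contra hcc
          have : 3 ≤ c := by omega
          have h5 : 2 ^ K * 3 ≤ 2 ^ K * c := Nat.mul_le_mul_left _ this
          have h6 : 2 ^ 1 ≤ 2 ^ K := Nat.pow_le_pow_right (by norm_num) hK
          omega
        have : c = 2 := by omega
        subst this
        apply hn
        rw [hc]; ring
    refine Nat.Coprime.prod_right fun i hi => ?_
    rw [Finset.mem_erase, Finset.mem_Icc] at hi
    refine coprime_aux (by omega) ?_ hA hA2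
    rw [← h2K]
    apply not_dvd_of_lt (by omega) _ _
    · omega
    · intro hc; apply hi.1; omega
  · intro A hA hA2
    exact Nat.Coprime.coprime_dvd_right (Nat.gcd_dvd_left 4 _) (coprime_four hA)

theorem poplus_key {N n q K : ℕ} (hq : 2 ≤ q) (hK : 1 ≤ K) (h1 : 2 ^ K ≤ n - 1)
    (h2 : n < 2 ^ (K + 1)) (h : IsPOmegaPlusOrder N n q) (hN : IsSquare N) :
    Odd q ∧ ∃ y, q ^ 2 ^ K + 1 = 2 * y ^ 2 := by
  have hm : 2 ^ K ∈ Finset.Icc 1 (n - 1) := by
    rw [Finset.mem_Icc]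
    exact ⟨Nat.one_le_two_pow, h1⟩
  have h2K : 2 * 2 ^ K = 2 ^ (K + 1) := by ring
  have hprod : ∏ i ∈ Finset.Icc 1 (n - 1), (q ^ (2 * i) - 1) = (q ^ 2 ^ (K + 1) - 1) *
      ∏ i ∈ (Finset.Icc 1 (n - 1)).erase (2 ^ K), (q ^ (2 * i) - 1) := by
    rw [← h2K]
    exact (Finset.mul_prod_erase _ (fun i => q ^ (2 * i) - 1) hm).symm
  rw [IsPOmegaPlusOrder, hprod, pow_sub_factor] at h
  have h' : N * Nat.gcd 4 (q ^ n - 1) = (q ^ 2 ^ K + 1) * (q ^ (n * (n - 1)) * ((q ^ n - 1) *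
      ((q ^ 2 ^ K - 1) * ∏ i ∈ (Finset.Icc 1 (n - 1)).erase (2 ^ K), (q ^ (2 * i) - 1)))) := by
    rw [h]; ring
  refine key hq hK hN h' ?_ ?_
  · intro A hA hA2
    refine (coprime_pow_self hA2).mul_right (Nat.Coprime.mul_right ?_
      ((coprime_half (by omega) hA hA2).mul_right ?_))
    · refine coprime_aux (by omega) ?_ hA hA2
      intro hc
      have := Nat.le_of_dvd (by
        have h6 : 1 ≤ 2 ^ K := Nat.one_le_two_pow
        omega) hc
      omega
    refine Nat.Coprime.prod_right fun i hi => ?_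
    rw [Finset.mem_erase, Finset.mem_Icc] at hi
    refine coprime_aux (by omega) ?_ hA hA2
    rw [← h2K]
    apply not_dvd_of_lt (by omega) _ _
    · omega
    · intro hc; apply hi.1; omega
  · intro A hA hA2
    exact Nat.Coprime.coprime_dvd_right (Nat.gcd_dvd_left 4 _) (coprime_four hA)

/-- `PΩ⁺_{2n}(q)` with `n = 2^(i+3)`: the factor `Φ_{12·2^i}(q)` -/
theorem poplus_pow_two {N q i : ℕ} (hq : 2 ≤ q) (h : IsPOmegaPlusOrder N (2 ^ (i + 3)) q)
    (hN : IsSquare N) : False := by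
  have hp : 1 ≤ 2 ^ i := Nat.one_le_two_pow
  have e3 : 2 ^ (i + 3) = 8 * 2 ^ i := by ring
  have hm : 6 * 2 ^ i ∈ Finset.Icc 1 (2 ^ (i + 3) - 1) := by
    rw [Finset.mem_Icc, e3]; omega
  have hprod : ∏ j ∈ Finset.Icc 1 (2 ^ (i + 3) - 1), (q ^ (2 * j) - 1) =
      (q ^ (12 * 2 ^ i) - 1) *
      ∏ j ∈ (Finset.Icc 1 (2 ^ (i + 3) - 1)).erase (6 * 2 ^ i), (q ^ (2 * j) - 1) := by
    have := (Finset.mul_prod_erase _ (fun j => q ^ (2 * j) - 1) hm).symm
    rw [this]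
    congr 3
    ring
  set X := q ^ 2 ^ i with hX
  have hX1 : 1 ≤ X := Nat.one_le_pow _ _ (by omega)
  have hfac : q ^ (12 * 2 ^ i) - 1 = phi q i * ((X ^ 2 + 1) * (X ^ 6 - 1)) := by
    have h1 : q ^ (12 * 2 ^ i) = (X ^ 6) ^ 2 := by
      rw [hX, ← pow_mul, ← pow_mul]; congr 1; ring
    have h2 : (X ^ 6) ^ 2 - 1 = (X ^ 6 + 1) * (X ^ 6 - 1) := by
      have h := Nat.sq_sub_sq (X ^ 6) 1
      simpa using h
    rw [h1, h2, ← phi_mul hX1]
    unfold phi
    rw [← hX]; ring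
  rw [IsPOmegaPlusOrder, hprod, hfac] at h
  have h' : N * Nat.gcd 4 (q ^ 2 ^ (i + 3) - 1) = phi q i *
      (q ^ (2 ^ (i + 3) * (2 ^ (i + 3) - 1)) * ((q ^ 2 ^ (i + 3) - 1) *
      (((X ^ 2 + 1) * (X ^ 6 - 1)) *
      ∏ j ∈ (Finset.Icc 1 (2 ^ (i + 3) - 1)).erase (6 * 2 ^ i), (q ^ (2 * j) - 1)))) := by
    rw [h]; ring
  refine key12 hq hN h' ?_ ?_
  · refine (phi_coprime_pow (by omega)).mul_right (Nat.Coprime.mul_right ?_
      (Nat.Coprime.mul_right (Nat.Coprime.mul_right ?_ ?_) ?_))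
    · refine phi_coprime (by omega) ?_
      intro hc
      have := Nat.le_of_dvd (by positivity) hc
      omega
    · have h3 := phi_coprime_add (q := q) (i := i) (d := 2 * 2 ^ i) (by omega) (fun hc => by
        have := Nat.le_of_dvd (by positivity) hc
        omega)
      have h4 : q ^ (2 * 2 ^ i) = X ^ 2 := by rw [hX, ← pow_mul]; congr 1; ring
      rwa [h4] at h3
    · have h3 := phi_coprime (q := q) (i := i) (d := 6 * 2 ^ i) (by omega) (fun hc => by
        have := Nat.le_of_dvd (by positivity) hc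
        omega)
      have h4 : q ^ (6 * 2 ^ i) = X ^ 6 := by rw [hX, ← pow_mul]; congr 1; ring
      rwa [h4] at h3
    · refine Nat.Coprime.prod_right fun j hj => ?_
      rw [Finset.mem_erase, Finset.mem_Icc] at hj
      refine phi_coprime (by omega) ?_
      apply not_dvd_of_lt (by omega) _ _
      · omega
      · intro hc; apply hj.1; omega
  · exact Nat.Coprime.coprime_dvd_right (Nat.gcd_dvd_left 4 _) (coprime_four phi_odd)

end Pool.Agent.H22.SO
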