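import Mathlib

/-!
# The NSW numbers
-/

namespace Pool.Agent.H22.SO

/-- `S_0 = S_1 = 1`, `S_k = 2 S_{k-1} + S_{k-2}`; the NSW numbers are the `S_{2m+1}`. -/
def nswSeq : ℕ → ℕ
  | 0 => 1
  | 1 => 1
  | k + 2 => 2 * nswSeq (k + 1) + nswSeq k

/-- `W_0 = 0`, `W_1 = 1`, `W_k = 2 W_{k-1} + W_{k-2}` -/
def pellSeq : ℕ → ℕ
  | 0 => 0
  | 1 => 1
  | k + 2 => 2 * pellSeq (k + 1) + pellSeq k

theorem seq_step (k : ℕ) : nswSeq (k + 1) = nswSeq k + 2 * pellSeq k ∧
    pellSeq (k + 1) = nswSeq k + pellSeq k := by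
  induction k using Nat.strong_induction_on with
  | _ k ih =>
    match k with
    | 0 => simp [nswSeq, pellSeq]
    | 1 => simp [nswSeq, pellSeq]
    | k + 2 =>
      obtain ⟨h1, h2⟩ := ih (k + 1) (by omega)
      obtain ⟨h3, h4⟩ := ih k (by omega)
      have a1 : nswSeq (k + 3) = 2 * nswSeq (k + 2) + nswSeq (k + 1) := rfl
      have a2 : pellSeq (k + 3) = 2 * pellSeq (k + 2) + pellSeq (k + 1) := rfl
      have a3 : nswSeq (k + 2) = 2 * nswSeq (k + 1) + nswSeq k := rfl
      have a4 : pellSeq (k + 2) = 2 * pellSeq (k + 1) + pellSeq k := rfl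
      constructor
      · show nswSeq (k + 3) = _
        omega
      · show pellSeq (k + 3) = _
        omega

theorem seq_step2 (k : ℕ) : nswSeq (k + 2) = 3 * nswSeq k + 4 * pellSeq k ∧
    pellSeq (k + 2) = 2 * nswSeq k + 3 * pellSeq k := by
  obtain ⟨h1, h2⟩ := seq_step k
  obtain ⟨h3, h4⟩ := seq_step (k + 1)
  constructor
  · show nswSeq (k + 1 + 1) = _
    omega
  · show pellSeq (k + 1 + 1) = _
    omega

theorem nsw_eq (m : ℕ) : nswSeq (2 * m + 1) ^ 2 + 1 = 2 * pellSeq (2 * m + 1) ^ 2 := by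
  induction m with
  | zero => simp [nswSeq, pellSeq]
  | succ m ih =>
    obtain ⟨h1, h2⟩ := seq_step2 (2 * m + 1)
    have e : 2 * (m + 1) + 1 = 2 * m + 1 + 2 := by ring
    rw [e, h1, h2]
    nlinarith

theorem nsw_of_eq (y : ℕ) : ∀ x : ℕ, x ^ 2 + 1 = 2 * y ^ 2 →
    ∃ m, x = nswSeq (2 * m + 1) ∧ y = pellSeq (2 * m + 1) := by
  induction y using Nat.strong_induction_on with
  | _ y ih =>
    intro x h
    by_cases hy : y ≤ 2
    · have hy1 : y = 1 := by
        have : y = 0 ∨ y = 1 ∨ y = 2 := by omega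
        rcases this with rfl | rfl | rfl
        · omega
        · rfl
        · exfalso
          have : x < 3 := by nlinarith
          interval_cases x <;> omega
      subst hy1
      refine ⟨0, ?_, rfl⟩
      have : x < 2 := by nlinarith
      interval_cases x
      · omega
      · rfl
    · have hy3 : 3 ≤ y := by omega
      have h1 : 4 * y ≤ 3 * x := by
        by_contra hc
        have : 3 * x < 4 * y := by omega
        nlinarith
      have h2 : 2 * x < 3 * y := by
        by_contra hc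
        have : 3 * y ≤ 2 * x := by omega
        nlinarith
      have h3 : y < x := by
        by_contra hc
        have : x ≤ y := by omega
        nlinarith
      obtain ⟨x', hx'⟩ : ∃ x', 3 * x = 4 * y + x' := ⟨3 * x - 4 * y, by omega⟩
      obtain ⟨y', hy'⟩ : ∃ y', 3 * y = 2 * x + y' := ⟨3 * y - 2 * x, by omega⟩
      have hx : x = 3 * x' + 4 * y' := by omega
      have hyy : y = 2 * x' + 3 * y' := by omega
      have h4 : x' ^ 2 + 1 = 2 * y' ^ 2 := by
        rw [hx, hyy] at h
        nlinarith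
      obtain ⟨m, hm1, hm2⟩ := ih y' (by omega) x' h4
      refine ⟨m + 1, ?_, ?_⟩
      · have e : 2 * (m + 1) + 1 = 2 * m + 1 + 2 := by ring
        rw [e, (seq_step2 (2 * m + 1)).1, ← hm1, ← hm2, hx]
      · have e : 2 * (m + 1) + 1 = 2 * m + 1 + 2 := by ring
        rw [e, (seq_step2 (2 * m + 1)).2, ← hm1, ← hm2, hyy]

end Pool.Agent.H22.SO
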