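import Pool.Agent.H22.SO.Rank
import Pool.Agent.H22.SO.Four
import Pool.Agent.H22.SO.Nsw

/-!
# Square orders: the classical groups of small rank
-/

namespace Pool.Agent.H22.SO

theorem cancel_sq {a s : ℕ} (hs : s ≠ 0) (h : IsSquare (a * s ^ 2)) : IsSquare a := by
  obtain ⟨y, hy⟩ := h
  have h1 : s ^ 2 ∣ y ^ 2 := ⟨a, by rw [pow_two y, ← hy]; ring⟩
  obtain ⟨z, rfl⟩ := (Nat.pow_dvd_pow_iff (by norm_num)).1 h1
  refine ⟨z, ?_⟩
  have h2 : 0 < s ^ 2 := by positivity
  apply Nat.eq_of_mul_eq_mul_right h2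
  rw [hy]; ring

/-- `N` square and `N g = s² C` imply `C g` square -/
theorem cofactor {N g s C : ℕ} (hN : IsSquare N) (hs : s ≠ 0) (h : N * g = s ^ 2 * C) :
    IsSquare (C * g) := by
  apply cancel_sq hs
  have : C * g * s ^ 2 = N * (g * g) := by
    rw [← mul_assoc, h]; ring
  rw [this]
  exact hN.mul ⟨g, rfl⟩

theorem isSquare_of_pow {q e : ℕ} (hq : q ≠ 0) (he : Odd e) (h : IsSquare (q ^ e)) :
    IsSquare q := by
  obtain ⟨k, rfl⟩ := he
  apply cancel_sq (s := q ^ k) (pow_ne_zero _ hq)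
  have : q * (q ^ k) ^ 2 = q ^ (2 * k + 1) := by rw [← pow_mul]; ring
  rwa [this]

theorem coprime_self_sub {q i : ℕ} (hq : 1 ≤ q) (hi : 1 ≤ i) : Nat.Coprime q (q ^ i - 1) := by
  obtain ⟨j, rfl⟩ : ∃ j, i = j + 1 := ⟨i - 1, by omega⟩
  have h1 : 1 ≤ q ^ (j + 1) := Nat.one_le_pow _ _ hq
  rw [Nat.coprime_iff_gcd_eq_one]
  by_contra hcon
  obtain ⟨r, hr, hr1, hr2⟩ := Nat.Prime.not_coprime_iff_dvd.1 hcon
  have h2 : r ∣ q ^ (j + 1) := by rw [pow_succ]; exact hr1.mul_left _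
  have h3 : r ∣ 1 := by
    have := Nat.dvd_sub h2 hr2
    rwa [Nat.sub_sub_self h1] at this
  exact hr.one_lt.ne' (Nat.dvd_one.1 h3)

theorem coprime_self_add {q i : ℕ} (hi : 1 ≤ i) : Nat.Coprime q (q ^ i + 1) := by
  obtain ⟨j, rfl⟩ : ∃ j, i = j + 1 := ⟨i - 1, by omega⟩
  rw [pow_succ]
  simp

theorem no_sq_succ {r : ℕ} (hr : 1 ≤ r) : ¬ IsSquare (r ^ 2 + 1) := by
  rintro ⟨y, hy⟩
  have h1 : r < y := by nlinarith
  nlinarith

theorem no_sq_pred {r : ℕ} (hr : 2 ≤ r) : ¬ IsSquare (r ^ 2 - 1) := by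
  rintro ⟨y, hy⟩
  have h0 : 1 ≤ r ^ 2 := Nat.one_le_pow _ _ (by omega)
  have hy' : r ^ 2 = y * y + 1 := by omega
  have h1 : y < r := by nlinarith
  nlinarith

theorem no_sq_plus {q : ℕ} (hq : 1 ≤ q) : ¬ IsSquare (q ^ 2 + q + 1) := by
  rintro ⟨y, hy⟩
  have h1 : q < y := by nlinarith
  nlinarith

theorem no_sq_minus {q : ℕ} (hq : 1 ≤ q) : ¬ IsSquare (q * (q + 1) + 1) := by
  rintro ⟨y, hy⟩
  have h1 : q < y := by nlinarith
  nlinarith

/-- the order of `PSL_n(q)` is `q^(n(n-1)/2)` times something coprime to `q` -/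
theorem psl_q {N n q : ℕ} (hq : 2 ≤ q) (h : IsPSLOrder N n q) (hN : IsSquare N)
    (he : Odd (n * (n - 1) / 2)) : IsSquare q := by
  apply isSquare_of_pow (by omega) he
  refine square_of_mul hN h ?_ ?_
  · apply Nat.Coprime.pow_left
    refine Nat.Coprime.prod_right fun i hi => ?_
    rw [Finset.mem_Icc] at hi
    exact coprime_self_sub (by omega) (by omega)
  · apply Nat.Coprime.pow_left
    apply Nat.Coprime.coprime_dvd_right (Nat.gcd_dvd_right n (q - 1))
    simpa using coprime_self_sub (q := q) (i := 1) (by omega) (by omega)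

theorem psu_q {N n q : ℕ} (hq : 2 ≤ q) (h : IsPSUOrder N n q) (hN : IsSquare N)
    (he : Odd (n * (n - 1) / 2)) : IsSquare q := by
  apply isSquare_of_pow (by omega) he
  refine square_of_mul hN h ?_ ?_
  · apply Nat.Coprime.pow_left
    refine Nat.Coprime.prod_right fun i hi => ?_
    rw [Finset.mem_Icc] at hi
    split_ifs
    · exact coprime_self_sub (by omega) (by omega)
    · exact coprime_self_add (by omega)
  · apply Nat.Coprime.pow_left
    apply Nat.Coprime.coprime_dvd_right (Nat.gcd_dvd_right n (q + 1))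
    simp

theorem psp_q {N n q : ℕ} (hq : 2 ≤ q) (h : IsPSpOrder N n q) (hN : IsSquare N)
    (he : Odd (n ^ 2)) : IsSquare q := by
  apply isSquare_of_pow (by omega) he
  refine square_of_mul hN h ?_ ?_
  · apply Nat.Coprime.pow_left
    refine Nat.Coprime.prod_right fun i hi => ?_
    rw [Finset.mem_Icc] at hi
    exact coprime_self_sub (by omega) (by omega)
  · apply Nat.Coprime.pow_left
    apply Nat.Coprime.coprime_dvd_right (Nat.gcd_dvd_right 2 (q - 1))
    simpa using coprime_self_sub (q := q) (i := 1) (by omega) (by omega)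

/-- `q = r²` is incompatible with `q^(2^K) + 1 = 2 y²` -/
theorem no_square_q {q y K : ℕ} (hq : 2 ≤ q) (hK : 1 ≤ K) (h : q ^ 2 ^ K + 1 = 2 * y ^ 2)
    (hsq : IsSquare q) : False := by
  obtain ⟨r, rfl⟩ := hsq
  obtain ⟨L, rfl⟩ : ∃ L, K = L + 1 := ⟨K - 1, by omega⟩
  have h1 : (r * r) ^ 2 ^ (L + 1) = (r ^ 2 ^ L) ^ 4 := by
    rw [← pow_two, ← pow_mul, ← pow_mul]; congr 1; ring
  rw [h1] at h
  have h2 := quartic_one h
  rcases Nat.pow_eq_one.1 h2 with h3 | h3
  · subst h3; omega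
  · have : 0 < 2 ^ L := by positivity
    omega

theorem no_big {q y K : ℕ} (hq : 2 ≤ q) (hK : 2 ≤ K) (h : q ^ 2 ^ K + 1 = 2 * y ^ 2) :
    False := by
  obtain ⟨L, rfl⟩ : ∃ L, K = L + 2 := ⟨K - 2, by omega⟩
  have h1 : q ^ 2 ^ (L + 2) = (q ^ 2 ^ L) ^ 4 := by
    rw [← pow_mul]; congr 1; ring
  rw [h1] at h
  have h2 := quartic_one h
  rcases Nat.pow_eq_one.1 h2 with h3 | h3
  · omega
  · have : 0 < 2 ^ L := by positivity
    omega

theorem exists_log {n : ℕ} (hn : 1 ≤ n) : ∃ K, 2 ^ K ≤ n ∧ n < 2 ^ (K + 1) :=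
  ⟨Nat.log 2 n, Nat.pow_log_le_self 2 (by omega), Nat.lt_pow_succ_log_self (by norm_num) n⟩

theorem one_le_log {n K : ℕ} (h2 : n < 2 ^ (K + 1)) (hn : 2 ≤ n) : 1 ≤ K := by
  by_contra hc
  have : K = 0 := by omega
  subst this
  omega

theorem two_le_log {n K : ℕ} (h2 : n < 2 ^ (K + 1)) (hn : 4 ≤ n) : 2 ≤ K := by
  by_contra hc
  have h3 : 2 ^ (K + 1) ≤ 2 ^ 2 := Nat.pow_le_pow_right (by norm_num) (by omega)
  omega

theorem three_le_log {n K : ℕ} (h2 : n < 2 ^ (K + 1)) (hn : 8 ≤ n) : 3 ≤ K := by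
  by_contra hc
  have h3 : 2 ^ (K + 1) ≤ 2 ^ 3 := Nat.pow_le_pow_right (by norm_num) (by omega)
  omega

/-! ### cubes -/

theorem cube_sub_factor {q e : ℕ} (hq : 2 ≤ q) (he : e = 1 ∨ e = 2)
    (h : IsSquare (e * ((q - 1) * (q ^ 2 + q + 1)))) : ∃ a, q = 3 * e * a ^ 2 + 1 := by
  have hodd : Odd (q ^ 2 + q + 1) := by
    have : q ^ 2 + q = q * (q + 1) := by ring
    rw [this]
    exact (Nat.even_mul_succ_self q).add_one
  have hodde : ∀ x, Odd x → Nat.Coprime x e := by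
    intro x hx
    rcases he with rfl | rfl
    · simp
    · rw [Nat.coprime_comm]
      exact (Nat.coprime_two_left).2 hx
  by_cases h3 : 3 ∣ q - 1
  · obtain ⟨k, hk⟩ := h3
    have hq' : q = 3 * k + 1 := by omega
    have h4 : e * ((q - 1) * (q ^ 2 + q + 1)) = (e * k * (3 * k ^ 2 + 3 * k + 1)) * 3 ^ 2 := by
      rw [hk, hq']; ring
    rw [h4] at h
    have h5 := cancel_sq (by norm_num) h
    have hodd2 : Odd (3 * k ^ 2 + 3 * k + 1) := by
      have : 3 * k ^ 2 + 3 * k = 3 * (k * (k + 1)) := by ring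
      rw [this]
      exact ((Nat.even_mul_succ_self k).mul_left _).add_one
    have hc : Nat.Coprime (e * k) (3 * k ^ 2 + 3 * k + 1) := by
      apply Nat.Coprime.mul_left
      · exact (hodde _ hodd2).symm
      · have : 3 * k ^ 2 + 3 * k + 1 = 1 + k * (3 * k + 3) := by ring
        rw [this]
        simp
    obtain ⟨b, hb⟩ := sq_left_of_coprime hc h5
    rcases he with rfl | rfl
    · exact ⟨b, by rw [hq']; nlinarith⟩
    · have h6 : 2 ∣ b := by
        have : 2 ∣ b * b := ⟨k, hb.symm⟩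
        rcases (Nat.Prime.dvd_mul Nat.prime_two).1 this with h | h <;> exact h
      obtain ⟨a, rfl⟩ := h6
      exact ⟨a, by rw [hq']; nlinarith⟩
  · exfalso
    have hc : Nat.Coprime (q ^ 2 + q + 1) (e * (q - 1)) := by
      apply Nat.Coprime.mul_right (hodde _ hodd)
      by_contra hcon
      obtain ⟨r, hr, hr1, hr2⟩ := Nat.Prime.not_coprime_iff_dvd.1 hcon
      obtain ⟨k, hk⟩ := hr2
      have hq' : q = r * k + 1 := by omega
      have h4 : q ^ 2 + q + 1 = r * (k * (r * k + 3)) + 3 := by rw [hq']; ring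
      rw [h4] at hr1
      have h5 : r ∣ 3 := (Nat.dvd_add_right (Dvd.intro _ rfl)).1 hr1
      have h6 := (Nat.prime_dvd_prime_iff_eq hr Nat.prime_three).1 h5
      subst h6
      exact h3 ⟨k, hk⟩
    have h4 : (q ^ 2 + q + 1) * (e * (q - 1)) = e * ((q - 1) * (q ^ 2 + q + 1)) := by ring
    rw [← h4] at h
    exact no_sq_plus (by omega) (sq_left_of_coprime hc h)

theorem cube_add_factor {q e : ℕ} (hq : 2 ≤ q) (he : e = 1 ∨ e = 2)
    (h : IsSquare (e * ((q + 1) * (q * (q - 1) + 1)))) : ∃ a, q + 1 = 3 * e * a ^ 2 := by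
  obtain ⟨s, hs⟩ : ∃ s, q = s + 1 := ⟨q - 1, by omega⟩
  have hs1 : q - 1 = s := by omega
  rw [hs1] at h
  have hodd : Odd (q * s + 1) := by
    rw [hs, mul_comm]
    exact (Nat.even_mul_succ_self s).add_one
  have hodde : ∀ x, Odd x → Nat.Coprime x e := by
    intro x hx
    rcases he with rfl | rfl
    · simp
    · rw [Nat.coprime_comm]
      exact (Nat.coprime_two_left).2 hx
  by_cases h3 : 3 ∣ q + 1
  · obtain ⟨k, hk⟩ := h3
    obtain ⟨j, rfl⟩ : ∃ j, k = j + 1 := ⟨k - 1, by omega⟩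
    have hs' : s = 3 * j + 1 := by omega
    have h4 : e * ((q + 1) * (q * s + 1)) =
        (e * (j + 1) * (3 * (j * (j + 1)) + 1)) * 3 ^ 2 := by
      rw [hs, hs']; ring
    rw [h4] at h
    have h5 := cancel_sq (by norm_num) h
    have hodd2 : Odd (3 * (j * (j + 1)) + 1) :=
      ((Nat.even_mul_succ_self j).mul_left _).add_one
    have hc : Nat.Coprime (e * (j + 1)) (3 * (j * (j + 1)) + 1) := by
      apply Nat.Coprime.mul_left
      · exact (hodde _ hodd2).symm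
      · have : 3 * (j * (j + 1)) + 1 = 1 + (j + 1) * (3 * j) := by ring
        rw [this]
        simp
    obtain ⟨b, hb⟩ := sq_left_of_coprime hc h5
    rcases he with rfl | rfl
    · exact ⟨b, by rw [hk]; nlinarith⟩
    · have h6 : 2 ∣ b := by
        have : 2 ∣ b * b := ⟨j + 1, hb.symm⟩
        rcases (Nat.Prime.dvd_mul Nat.prime_two).1 this with h | h <;> exact h
      obtain ⟨a, rfl⟩ := h6
      exact ⟨a, by rw [hk]; nlinarith⟩
  · exfalso
    have hc : Nat.Coprime (s * (s + 1) + 1) (e * (q + 1)) := by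
      apply Nat.Coprime.mul_right
      · apply hodde
        rw [hs] at hodd
        rwa [mul_comm] at hodd
      by_contra hcon
      obtain ⟨r, hr, hr1, hr2⟩ := Nat.Prime.not_coprime_iff_dvd.1 hcon
      have h5 : r ∣ (q + 1) * (s + 1) := hr2.mul_right _
      have h6 : (q + 1) * (s + 1) = (s * (s + 1) + 1) + (2 * s + 1) := by rw [hs]; ring
      rw [h6] at h5
      have h7 : r ∣ 2 * s + 1 := (Nat.dvd_add_right hr1).1 h5
      have h8 : r ∣ 2 * (q + 1) := hr2.mul_left _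
      have h9 : 2 * (q + 1) = (2 * s + 1) + 3 := by rw [hs]; ring
      rw [h9] at h8
      have h10 : r ∣ 3 := (Nat.dvd_add_right h7).1 h8
      have h11 := (Nat.prime_dvd_prime_iff_eq hr Nat.prime_three).1 h10
      subst h11
      exact h3 hr2
    have h4 : (s * (s + 1) + 1) * (e * (q + 1)) = e * ((q + 1) * (q * s + 1)) := by
      rw [hs]; ring
    rw [← h4] at h
    exact no_sq_minus (by omega) (sq_left_of_coprime hc h)

end Pool.Agent.H22.SO
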