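import Pool.Agent.H22.SO.Defs

/-!
# `PSp_{2n}` over isomorphic rings
-/

namespace Pool.Agent.H22.SO

/-- the symplectic groups over isomorphic rings are isomorphic -/
noncomputable def sympEquiv (n : ℕ) {R S : Type} [CommRing R] [CommRing S] (e : R ≃+* S) :
    Matrix.symplecticGroup (Fin n) R ≃* Matrix.symplecticGroup (Fin n) S where
  toFun A := ⟨A.1.map e, SymplecticGroup.map_mem A.2 e⟩
  invFun A := ⟨A.1.map e.symm, SymplecticGroup.map_mem A.2 e.symm⟩
  left_inv A := by
    apply Subtype.ext
    ext i j
    simp
  right_inv A := by
    apply Subtype.ext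
    ext i j
    simp
  map_mul' A B := by
    apply Subtype.ext
    exact Matrix.map_mul

theorem map_center {G H : Type} [Group G] [Group H] (e : G ≃* H) :
    (Subgroup.center G).map (e : G →* H) = Subgroup.center H := by
  ext h
  simp only [Subgroup.mem_map, Subgroup.mem_center_iff]
  constructor
  · rintro ⟨g, hg, rfl⟩ k
    have := congrArg e (hg (e.symm k))
    simpa using this
  · intro hh
    refine ⟨e.symm h, fun g => ?_, by simp⟩
    have := congrArg e.symm (hh (e g))
    simpa using this

/-- the projective symplectic groups over isomorphic rings are isomorphic -/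
noncomputable def pspEquiv (n : ℕ) {R S : Type} [CommRing R] [CommRing S] (e : R ≃+* S) :
    PSp n R ≃* PSp n S :=
  QuotientGroup.congr _ _ (sympEquiv n e) (map_center _)

end Pool.Agent.H22.SO
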